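import Mathlib
set_option autoImplicit false
open scoped ComplexOrder
open Matrix

namespace Pool.Agent.Helper547

section
variable {n m : Type*} [Fintype n] [DecidableEq n] [Fintype m] [DecidableEq m]

lemma exists_factor {M : Matrix n n ℂ} (hM : M.PosSemidef) :
    ∃ X : Matrix n n ℂ, Xᴴ * X = M := by
  open scoped MatrixOrder in
  refine ⟨CFC.sqrt M, ?_⟩
  have h0 : 0 ≤ M := Matrix.nonneg_iff_posSemidef.mpr hM
  have h1 : 0 ≤ CFC.sqrt M := CFC.sqrt_nonneg M
  have h2 : (CFC.sqrt M).IsHermitian := (Matrix.nonneg_iff_posSemidef.mp h1).1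
  rw [h2.eq]
  exact CFC.sqrt_mul_sqrt_self M h0

lemma diag_contraction {T : Matrix m m ℂ} (hT : T.IsHermitian)
    (h1 : (1 - T).PosSemidef) (h2 : (1 + T).PosSemidef) :
    ∃ (U : Matrix m m ℂ) (t : m → ℝ), (∀ k, |t k| ≤ 1) ∧ Uᴴ * U = 1 ∧ U * Uᴴ = 1 ∧
      T = U * diagonal (fun k => (t k : ℂ)) * Uᴴ := by
  set U : Matrix m m ℂ := (hT.eigenvectorUnitary : Matrix m m ℂ) with hU
  have hUU : Uᴴ * U = 1 := by
    have := (Matrix.mem_unitaryGroup_iff').1 hT.eigenvectorUnitary.2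
    simpa [Matrix.star_eq_conjTranspose] using this
  have hUU' : U * Uᴴ = 1 := by
    have := (Matrix.mem_unitaryGroup_iff).1 hT.eigenvectorUnitary.2
    simpa [Matrix.star_eq_conjTranspose] using this
  have hTs : T = U * diagonal (fun k => (hT.eigenvalues k : ℂ)) * Uᴴ := by
    have := hT.spectral_theorem
    rw [Unitary.conjStarAlgAut_apply] at this
    simpa [Matrix.star_eq_conjTranspose, Function.comp_def] using this
  refine ⟨U, hT.eigenvalues, ?_, hUU, hUU', hTs⟩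
  intro k
  have hd : diagonal (fun k => (hT.eigenvalues k : ℂ)) = Uᴴ * T * U := by
    conv_rhs => rw [hTs]
    calc diagonal (fun k => (hT.eigenvalues k : ℂ)) = 1 * diagonal (fun k => (hT.eigenvalues k : ℂ)) * 1 := by simp
      _ = (Uᴴ * U) * diagonal (fun k => (hT.eigenvalues k : ℂ)) * (Uᴴ * U) := by rw [hUU]
      _ = _ := by simp only [Matrix.mul_assoc]
  have e1 : (1 - diagonal (fun k => (hT.eigenvalues k : ℂ))).PosSemidef := by
    have := h1.conjTranspose_mul_mul_same U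
    rw [hd]
    convert this using 1
    rw [Matrix.mul_sub, Matrix.sub_mul, Matrix.mul_one, hUU]
  have e2 : (1 + diagonal (fun k => (hT.eigenvalues k : ℂ))).PosSemidef := by
    have := h2.conjTranspose_mul_mul_same U
    rw [hd]
    convert this using 1
    rw [Matrix.mul_add, Matrix.add_mul, Matrix.mul_one, hUU]
  have f1 := e1.diag_nonneg (i := k)
  have f2 := e2.diag_nonneg (i := k)
  simp only [Matrix.sub_apply, Matrix.add_apply, Matrix.one_apply_eq, Matrix.diagonal_apply_eq] at f1 f2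
  rw [abs_le]
  have g1 := (Complex.le_def.1 f1).1
  have g2 := (Complex.le_def.1 f2).1
  simp at g1 g2
  constructor <;> linarith

lemma schur_le {Z : Matrix n n ℂ} (hZ : Z.PosDef) (Y : Matrix m n ℂ)
    (h : (Z - Yᴴ * Y).PosSemidef) : (1 - Y * Z⁻¹ * Yᴴ).PosSemidef := by
  have : Invertible Z := hZ.isUnit.invertible
  have : Invertible (1 : Matrix m m ℂ) := invertibleOne
  rw [← Matrix.PosDef.fromBlocks₂₂ (1 : Matrix m m ℂ) Y hZ]
  rw [Matrix.PosDef.fromBlocks₁₁ Y Z Matrix.PosDef.one]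
  simpa using h

lemma moment (S0 S1 S2 : Matrix n n ℂ) (hb : (fromBlocks S0 S1 S1 S2).PosSemidef)
    (h02 : (S0 - S2).PosSemidef) (hpd : (S0 - S1).PosDef) :
    ∃ (t : n ⊕ n → ℝ) (B : Matrix (n ⊕ n) n ℂ), (∀ k, |t k| ≤ 1) ∧ Bᴴ * B = S0 ∧
      Bᴴ * diagonal (fun k => (t k : ℂ)) * B = S1 ∧
      Bᴴ * (diagonal (fun k => (t k : ℂ)) * diagonal (fun k => (t k : ℂ))) * B = S2 := by
  obtain ⟨X, hX⟩ := exists_factor hb
  set A : Matrix (n ⊕ n) n ℂ := X.submatrix id Sum.inl with hA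
  set F : Matrix (n ⊕ n) n ℂ := X.submatrix id Sum.inr with hF
  have hAA : Aᴴ * A = S0 := by
    ext i j
    have := congrFun (congrFun hX (Sum.inl i)) (Sum.inl j)
    simpa [Matrix.mul_apply, A] using this
  have hAF : Aᴴ * F = S1 := by
    ext i j
    have := congrFun (congrFun hX (Sum.inl i)) (Sum.inr j)
    simpa [Matrix.mul_apply, A, F] using this
  have hFA : Fᴴ * A = S1 := by
    ext i j
    have := congrFun (congrFun hX (Sum.inr i)) (Sum.inl j)
    simpa [Matrix.mul_apply, A, F] using this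
  have hFF : Fᴴ * F = S2 := by
    ext i j
    have := congrFun (congrFun hX (Sum.inr i)) (Sum.inr j)
    simpa [Matrix.mul_apply, F] using this
  set Z : Matrix n n ℂ := S0 - S1 with hZ
  set Y : Matrix (n ⊕ n) n ℂ := A - F with hY
  have hYY : Yᴴ * Y = S0 - S1 - S1 + S2 := by
    rw [hY, Matrix.conjTranspose_sub, Matrix.sub_mul, Matrix.mul_sub, Matrix.mul_sub, hAA, hAF, hFA, hFF]
    abel
  have hYA : Yᴴ * A = Z := by
    rw [hY, Matrix.conjTranspose_sub, Matrix.sub_mul, hAA, hFA]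
  have hZu : IsUnit Z.det := by
    have := hpd.isUnit
    rwa [Matrix.isUnit_iff_isUnit_det] at this
  have hZinv : Z⁻¹ * Z = 1 := Matrix.nonsing_inv_mul _ hZu
  have hZip : (Z⁻¹).PosDef := hpd.inv
  -- the matrix T
  set T : Matrix (n ⊕ n) (n ⊕ n) ℂ := 1 - Y * Z⁻¹ * Yᴴ with hT
  have hE : (Y * Z⁻¹ * Yᴴ).PosSemidef := hZip.posSemidef.mul_mul_conjTranspose_same Y
  have hTh : T.IsHermitian := by
    have := hE.1
    exact Matrix.isHermitian_one.sub this
  have h1 : (1 - T).PosSemidef := by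
    rw [hT]; simpa using hE
  have h2Z : ((2 : ℂ) • Z).PosDef := hpd.smul (by norm_num : (0 : ℂ) < 2)
  have h3 : ((2 : ℂ) • Z - Yᴴ * Y).PosSemidef := by
    rw [hYY]
    convert h02 using 1
    rw [hZ, two_smul]; abel
  have h4 := schur_le h2Z Y h3
  have h5 : ((2 : ℂ) • Z)⁻¹ = (1 / 2 : ℂ) • Z⁻¹ := by
    apply Matrix.inv_eq_left_inv
    rw [Matrix.smul_mul, Matrix.mul_smul, smul_smul, hZinv]
    norm_num
  have h2 : (1 + T).PosSemidef := by
    have h6 : (1 + T) = (2 : ℂ) • (1 - Y * ((2 : ℂ) • Z)⁻¹ * Yᴴ) := by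
      rw [h5, hT, Matrix.mul_smul, Matrix.smul_mul, smul_sub, smul_smul, two_smul,
        show (2 : ℂ) * (1 / 2) = 1 by norm_num, one_smul]
      abel
    rw [h6]
    exact h4.smul (by norm_num : (0 : ℂ) ≤ 2)
  have hTA : T * A = F := by
    rw [hT, Matrix.sub_mul, Matrix.one_mul, Matrix.mul_assoc, hYA, Matrix.mul_assoc, hZinv, Matrix.mul_one, hY]
    abel
  obtain ⟨U, t, ht, hUU, hUU', hTs⟩ := diag_contraction hTh h1 h2
  refine ⟨t, Uᴴ * A, ht, ?_, ?_, ?_⟩
  · rw [Matrix.conjTranspose_mul, Matrix.conjTranspose_conjTranspose]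
    calc Aᴴ * U * (Uᴴ * A) = Aᴴ * (U * Uᴴ) * A := by simp only [Matrix.mul_assoc]
      _ = S0 := by rw [hUU', Matrix.mul_one, hAA]
  · rw [Matrix.conjTranspose_mul, Matrix.conjTranspose_conjTranspose]
    calc Aᴴ * U * diagonal (fun k => (t k : ℂ)) * (Uᴴ * A)
        = Aᴴ * ((U * diagonal (fun k => (t k : ℂ)) * Uᴴ) * A) := by simp only [Matrix.mul_assoc]
      _ = S1 := by rw [← hTs, hTA, hAF]
  · rw [Matrix.conjTranspose_mul, Matrix.conjTranspose_conjTranspose]
    have hTT : (T * A)ᴴ = Fᴴ := by rw [hTA]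
    rw [Matrix.conjTranspose_mul, hTh.eq] at hTT
    calc Aᴴ * U * (diagonal (fun k => (t k : ℂ)) * diagonal (fun k => (t k : ℂ))) * (Uᴴ * A)
        = (Aᴴ * (U * diagonal (fun k => (t k : ℂ)) * 1)) * (diagonal (fun k => (t k : ℂ)) * Uᴴ * A) := by
          simp only [Matrix.mul_assoc, Matrix.one_mul]
      _ = (Aᴴ * (U * diagonal (fun k => (t k : ℂ)) * (Uᴴ * U))) * (diagonal (fun k => (t k : ℂ)) * Uᴴ * A) := by
          rw [hUU]
      _ = (Aᴴ * (U * diagonal (fun k => (t k : ℂ)) * Uᴴ)) * ((U * diagonal (fun k => (t k : ℂ)) * Uᴴ) * A) := by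
          simp only [Matrix.mul_assoc]
      _ = S2 := by rw [← hTs, hTA, hTT, hFF]

end

end Pool.Agent.Helper547
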