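import Pool.Agent.Helper547.A1
set_option autoImplicit false
open scoped ComplexOrder
open Matrix

namespace Pool.Agent.Helper547

section
variable {n m : Type*} [Fintype n] [DecidableEq n] [Fintype m] [DecidableEq m]

lemma isOpen_posdef : IsOpen {X : Matrix m m ℂ | (X + Xᴴ).PosDef} := by
  have key : {X : Matrix m m ℂ | (X + Xᴴ).PosDef} =
      {X | ∀ x ∈ Metric.sphere (0 : m → ℂ) 1, 0 < (star x ⬝ᵥ ((X + Xᴴ) *ᵥ x)).re} := by
    ext X
    simp only [Set.mem_setOf_eq]
    constructor
    · intro h x hx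
      have hx0 : x ≠ 0 := by
        intro h0; rw [h0] at hx; simp at hx
      exact (Complex.lt_def.1 (h.dotProduct_mulVec_pos hx0)).1
    · intro h
      have hH : (X + Xᴴ).IsHermitian := Matrix.isHermitian_add_transpose_self X
      refine Matrix.PosDef.of_dotProduct_mulVec_pos hH ?_
      intro x hx
      have hnorm : 0 < ‖x‖ := norm_pos_iff.2 hx
      have h1 := h (((‖x‖⁻¹ : ℝ) : ℂ) • x) (by
        rw [mem_sphere_zero_iff_norm, norm_smul]
        simp [hnorm.ne'])
      have h2 : star ((((‖x‖⁻¹ : ℝ) : ℂ)) • x) ⬝ᵥ ((X + Xᴴ) *ᵥ ((((‖x‖⁻¹ : ℝ) : ℂ)) • x))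
          = ((‖x‖⁻¹ ^ 2 : ℝ) : ℂ) * (star x ⬝ᵥ ((X + Xᴴ) *ᵥ x)) := by
        rw [Matrix.mulVec_smul, star_smul, smul_dotProduct, dotProduct_smul]
        simp only [smul_eq_mul, RCLike.star_def, Complex.conj_ofReal]
        push_cast
        ring
      rw [h2, Complex.re_ofReal_mul] at h1
      have h3 : 0 < (star x ⬝ᵥ ((X + Xᴴ) *ᵥ x)).re := by
        have : 0 < ‖x‖⁻¹ ^ 2 := by positivity
        exact (pos_iff_pos_of_mul_pos h1).1 this
      have h4 : (star x ⬝ᵥ ((X + Xᴴ) *ᵥ x)).im = 0 := by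
        have := hH.im_star_dotProduct_mulVec_self x
        simpa using this
      rw [Complex.lt_def]
      exact ⟨by simpa using h3, by simpa using h4.symm⟩
  rw [key, isOpen_iff_eventually]
  intro X hX
  apply (isCompact_sphere (0 : m → ℂ) 1).eventually_forall_of_forall_eventually
  intro x hx
  have hc : Continuous (fun p : Matrix m m ℂ × (m → ℂ) =>
      (star p.2 ⬝ᵥ ((p.1 + p.1ᴴ) *ᵥ p.2)).re) := by
    apply Complex.continuous_re.comp
    apply Continuous.dotProduct
    · fun_prop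
    · apply Continuous.matrix_mulVec
      · fun_prop
      · fun_prop
  exact hc.continuousAt.eventually (lt_mem_nhds (hX x hx))

lemma functional_matrix (f : Matrix m m ℂ →ₗ[ℂ] ℂ) :
    ∃ R : Matrix m m ℂ, ∀ X, f X = (R * X).trace := by
  refine ⟨Matrix.of fun j i => f (Matrix.single i j 1), ?_⟩
  intro X
  conv_lhs => rw [Matrix.matrix_eq_sum_single X]
  simp only [map_sum, Matrix.trace, Matrix.diag_apply, Matrix.mul_apply, Matrix.of_apply]
  rw [Finset.sum_comm]
  refine Finset.sum_congr rfl fun j _ => Finset.sum_congr rfl fun i _ => ?_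
  have : Matrix.single i j (X i j) = (X i j) • Matrix.single i j (1 : ℂ) := by
    rw [Matrix.smul_single]; simp
  rw [this, map_smul, smul_eq_mul, mul_comm]

end

end Pool.Agent.Helper547
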