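import Pool.Agent.Helper547.A2
set_option autoImplicit false
open scoped ComplexOrder
open Matrix

namespace Pool.Agent.Helper547

section
variable {n m : Type*} [Fintype n] [DecidableEq n] [Fintype m] [DecidableEq m]

/-- block perturbation -/
def blk (C K : Matrix n n ℂ) : Matrix (n ⊕ n) (n ⊕ n) ℂ :=
  fromBlocks (-C) (Complex.I • K) (-(Complex.I • K)) C

lemma blk_add (C K C' K' : Matrix n n ℂ) : blk (C + C') (K + K') = blk C K + blk C' K' := by
  unfold blk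
  rw [fromBlocks_add]
  congr 1 <;> simp only [smul_add, neg_add]

lemma blk_smul (a : ℝ) (C K : Matrix n n ℂ) : blk (a • C) (a • K) = a • blk C K := by
  unfold blk
  rw [fromBlocks_smul]
  congr 1
  · rw [smul_neg]
  · rw [smul_comm]
  · rw [smul_neg, smul_comm]

lemma blk_herm {C K : Matrix n n ℂ} (hC : C.IsHermitian) (hK : K.IsHermitian) :
    (blk C K).IsHermitian := by
  unfold blk
  rw [Matrix.isHermitian_fromBlocks_iff]
  refine ⟨hC.neg, ?_, ?_, hC⟩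
  · rw [conjTranspose_smul, hK.eq]; simp
  · rw [conjTranspose_neg, conjTranspose_smul, hK.eq]; simp

lemma trace_fromBlocks' (A B C D : Matrix n n ℂ) : (fromBlocks A B C D).trace = A.trace + D.trace := by
  simp [Matrix.trace]

/-- trace inequality from the moment lemma -/
lemma trace_ineq (H0 H1 H2 : Matrix n n ℂ) (Q : Matrix (n ⊕ n) (n ⊕ n) ℂ) (η : ℝ)
    (hb : (fromBlocks H0 H1 H1 H2).PosSemidef) (h02 : (H0 - H2).PosSemidef)
    (hpd : (H0 - H1).PosDef)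
    (h : ∀ r : ℝ, |r| ≤ 1 → (Q.toBlocks₁₁ + (r : ℂ) • (Q.toBlocks₁₂ + Q.toBlocks₂₁)
      + ((r * r : ℝ) : ℂ) • Q.toBlocks₂₂ - ((η * (1 + r * r) : ℝ) : ℂ) • 1).PosSemidef) :
    η * ((H0.trace).re + (H2.trace).re) ≤ ((fromBlocks H0 H1 H1 H2 * Q).trace).re := by
  obtain ⟨t, B, ht, hB0, hB1, hB2⟩ := moment H0 H1 H2 hb h02 hpd
  -- sum formula
  have hsum : (fromBlocks H0 H1 H1 H2 * Q).trace - ((η : ℝ) : ℂ) * (H0.trace + H2.trace) =
      ∑ k, (B * (Q.toBlocks₁₁ + ((t k : ℝ) : ℂ) • (Q.toBlocks₁₂ + Q.toBlocks₂₁)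
      + ((t k * t k : ℝ) : ℂ) • Q.toBlocks₂₂ - ((η * (1 + t k * t k) : ℝ) : ℂ) • (1 : Matrix n n ℂ)) * Bᴴ :
        Matrix (n ⊕ n) (n ⊕ n) ℂ) k k := by
    have e1 : ∀ X : Matrix n n ℂ, (H0 * X).trace = ∑ k, (B * X * Bᴴ : Matrix (n ⊕ n) (n ⊕ n) ℂ) k k := by
      intro X
      rw [← hB0, Matrix.mul_assoc, Matrix.trace_mul_comm, Matrix.trace]
      simp [Matrix.diag_apply]
    have e2 : ∀ X : Matrix n n ℂ, (H1 * X).trace = ∑ k, (t k : ℂ) * (B * X * Bᴴ : Matrix (n ⊕ n) (n ⊕ n) ℂ) k k := by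
      intro X
      rw [← hB1, Matrix.mul_assoc, Matrix.mul_assoc, Matrix.trace_mul_comm, Matrix.mul_assoc, Matrix.trace]
      refine Finset.sum_congr rfl fun k _ => ?_
      rw [Matrix.diag_apply, Matrix.diagonal_mul]
    have e3 : ∀ X : Matrix n n ℂ, (H2 * X).trace = ∑ k, ((t k : ℂ) * (t k : ℂ)) * (B * X * Bᴴ : Matrix (n ⊕ n) (n ⊕ n) ℂ) k k := by
      intro X
      rw [← hB2, Matrix.diagonal_mul_diagonal, Matrix.mul_assoc, Matrix.mul_assoc, Matrix.trace_mul_comm, Matrix.mul_assoc, Matrix.trace]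
      refine Finset.sum_congr rfl fun k _ => ?_
      rw [Matrix.diag_apply, Matrix.diagonal_mul]
    have e4 : (fromBlocks H0 H1 H1 H2 * Q).trace = (H0 * Q.toBlocks₁₁).trace + (H1 * Q.toBlocks₂₁).trace
        + ((H1 * Q.toBlocks₁₂).trace + (H2 * Q.toBlocks₂₂).trace) := by
      conv_lhs => rw [← Matrix.fromBlocks_toBlocks Q]
      rw [Matrix.fromBlocks_multiply, trace_fromBlocks', Matrix.trace_add, Matrix.trace_add]
    have e5 : H0.trace = ∑ k, (B * (1 : Matrix n n ℂ) * Bᴴ : Matrix (n ⊕ n) (n ⊕ n) ℂ) k k := by rw [← e1]; simp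
    have e6 : H2.trace = ∑ k, ((t k : ℂ) * (t k : ℂ)) * (B * (1 : Matrix n n ℂ) * Bᴴ : Matrix (n ⊕ n) (n ⊕ n) ℂ) k k := by rw [← e3]; simp
    rw [e4, e1, e2, e2, e3, e5, e6]
    rw [← Finset.sum_add_distrib, ← Finset.sum_add_distrib, ← Finset.sum_add_distrib, ← Finset.sum_add_distrib,
      Finset.mul_sum, ← Finset.sum_sub_distrib]
    refine Finset.sum_congr rfl fun k _ => ?_
    simp only [Matrix.mul_add, Matrix.add_mul, Matrix.mul_sub, Matrix.sub_mul, Matrix.add_apply, Matrix.sub_apply,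
      Matrix.mul_smul, Matrix.smul_mul, Matrix.smul_apply, smul_eq_mul]
    push_cast
    ring
  have hnn : 0 ≤ ((fromBlocks H0 H1 H1 H2 * Q).trace - ((η : ℝ) : ℂ) * (H0.trace + H2.trace)).re := by
    rw [hsum, Complex.re_sum]
    refine Finset.sum_nonneg fun k _ => ?_
    have := ((h (t k) (ht k)).mul_mul_conjTranspose_same B).diag_nonneg (i := k)
    exact (Complex.le_def.1 this).1
  rw [Complex.sub_re, Complex.re_ofReal_mul, Complex.add_re] at hnn
  linarith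

end

end Pool.Agent.Helper547
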