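import Pool.Agent.Helper547.A3
set_option autoImplicit false
open scoped ComplexOrder
open Matrix

namespace Pool.Agent.Helper547

section
variable {n m : Type*} [Fintype n] [DecidableEq n] [Fintype m] [DecidableEq m]

lemma convex_posdef : Convex ℝ {X : Matrix m m ℂ | (X + Xᴴ).PosDef} := by
  rw [convex_iff_forall_pos]
  intro X hX Y hY a b ha hb hab
  have hX' : (X + Xᴴ).PosDef := hX
  have hY' : (Y + Yᴴ).PosDef := hY
  show ((a • X + b • Y) + (a • X + b • Y)ᴴ).PosDef
  have : (a • X + b • Y) + (a • X + b • Y)ᴴ = a • (X + Xᴴ) + b • (Y + Yᴴ) := by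
    rw [conjTranspose_add, conjTranspose_smul, conjTranspose_smul]
    simp only [star_trivial, smul_add]
    abel
  rw [this]
  exact (hX'.smul ha).add (hY'.smul hb)

lemma convex_target (Q : Matrix (n ⊕ n) (n ⊕ n) ℂ) :
    Convex ℝ {X : Matrix (n ⊕ n) (n ⊕ n) ℂ | ∃ C K : Matrix n n ℂ, C.PosSemidef ∧ K.IsHermitian ∧
      X = Q + blk C K} := by
  intro X hX Y hY a b ha hb hab
  obtain ⟨C, K, hC, hK, rfl⟩ := hX
  obtain ⟨C', K', hC', hK', rfl⟩ := hY
  refine ⟨a • C + b • C', a • K + b • K', (hC.smul ha).add (hC'.smul hb), ?_, ?_⟩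
  · refine Matrix.IsHermitian.add ?_ ?_
    · rw [Matrix.IsHermitian, conjTranspose_smul, hK.eq]; simp
    · rw [Matrix.IsHermitian, conjTranspose_smul, hK'.eq]; simp
  · rw [blk_add, blk_smul, blk_smul, smul_add, smul_add]
    have : Q = a • Q + b • Q := by rw [← add_smul, hab, one_smul]
    nth_rewrite 3 [this]
    abel

lemma quad_trace (H : Matrix m m ℂ) (x : m → ℂ) :
    star x ⬝ᵥ (H *ᵥ x) = (H * vecMulVec x (star x)).trace := by
  rw [Matrix.mul_vecMulVec, Matrix.trace_vecMulVec, dotProduct_comm]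

lemma step1 (Q : Matrix (n ⊕ n) (n ⊕ n) ℂ) (hQ : Q.IsHermitian) (η : ℝ) (hη : 0 < η)
    (h : ∀ r : ℝ, |r| ≤ 1 → (Q.toBlocks₁₁ + (r : ℂ) • (Q.toBlocks₁₂ + Q.toBlocks₂₁)
      + ((r * r : ℝ) : ℂ) • Q.toBlocks₂₂ - ((η * (1 + r * r) : ℝ) : ℂ) • 1).PosSemidef) :
    ∃ C K : Matrix n n ℂ, C.PosSemidef ∧ K.IsHermitian ∧ (Q + blk C K).PosDef := by
  by_contra hcon
  push Not at hcon
  have disj : Disjoint {X : Matrix (n ⊕ n) (n ⊕ n) ℂ | (X + Xᴴ).PosDef}
      {X : Matrix (n ⊕ n) (n ⊕ n) ℂ | ∃ C K : Matrix n n ℂ, C.PosSemidef ∧ K.IsHermitian ∧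
      X = Q + blk C K} := by
    rw [Set.disjoint_left]
    rintro X hX ⟨C, K, hC, hK, rfl⟩
    apply hcon C K hC hK
    have hH : (Q + blk C K).IsHermitian := hQ.add (blk_herm hC.1 hK)
    have hX' : ((Q + blk C K) + (Q + blk C K)ᴴ).PosDef := hX
    rw [hH.eq, ← two_smul ℝ] at hX'
    have := hX'.smul (show (0 : ℝ) < 1 / 2 by norm_num)
    rwa [smul_smul, show (1 / 2 : ℝ) * 2 = 1 by norm_num, one_smul] at this
  obtain ⟨f, u, hf1, hf2⟩ := RCLike.geometric_hahn_banach_open (𝕜 := ℂ)
    convex_posdef isOpen_posdef (convex_target Q) disj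
  obtain ⟨R, hR⟩ := functional_matrix f.toLinearMap
  have hR' : ∀ X, f X = (R * X).trace := hR
  set H : Matrix (n ⊕ n) (n ⊕ n) ℂ := -(R + Rᴴ) with hH
  have hHH : H.IsHermitian := by
    rw [Matrix.IsHermitian, hH, conjTranspose_neg, conjTranspose_add, conjTranspose_conjTranspose, add_comm]
  have hkey : ∀ X : Matrix (n ⊕ n) (n ⊕ n) ℂ, X.IsHermitian → (H * X).trace.re = - (2 * (f X).re) := by
    intro X hX
    have h1 : (Rᴴ * X).trace = star ((R * X).trace) := by
      rw [← Matrix.trace_conjTranspose, conjTranspose_mul, hX.eq, Matrix.trace_mul_comm]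
    rw [hH, Matrix.neg_mul, Matrix.trace_neg, Matrix.add_mul, Matrix.trace_add, h1, ← hR']
    simp; ring
  have hpos : ∀ P : Matrix (n ⊕ n) (n ⊕ n) ℂ, P.PosSemidef → (f P).re ≤ 0 := by
    intro P hP
    by_contra hlt
    push Not at hlt
    have h1 : ∀ a : ℝ, 0 < a → a * (f P).re + (f 1).re < u := by
      intro a ha
      have hm : (a • P + (1 : Matrix (n ⊕ n) (n ⊕ n) ℂ)) ∈ {X : Matrix (n ⊕ n) (n ⊕ n) ℂ | (X + Xᴴ).PosDef} := by
        show ((a • P + 1) + (a • P + 1)ᴴ).PosDef
        have hh : (a • P + (1 : Matrix (n ⊕ n) (n ⊕ n) ℂ)).PosDef :=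
          Matrix.PosDef.posSemidef_add (hP.smul ha.le) Matrix.PosDef.one
        rw [hh.1.eq]
        exact hh.add hh
      have := hf1 _ hm
      simpa [map_add, map_smul] using this
    have h2 := h1 ((|u| + |(f 1).re| + 1) / (f P).re) (by positivity)
    rw [div_mul_cancel₀ _ hlt.ne'] at h2
    have := le_abs_self u
    have := neg_abs_le (f 1).re
    linarith
  have hone : (f 1).re ≤ 0 := hpos 1 Matrix.PosSemidef.one
  have hone' : ∀ a : ℝ, 0 < a → a * (f 1).re < u := by
    intro a ha
    have hm : (a • (1 : Matrix (n ⊕ n) (n ⊕ n) ℂ)) ∈ {X : Matrix (n ⊕ n) (n ⊕ n) ℂ | (X + Xᴴ).PosDef} := by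
      show ((a • (1 : Matrix (n ⊕ n) (n ⊕ n) ℂ)) + (a • (1 : Matrix (n ⊕ n) (n ⊕ n) ℂ))ᴴ).PosDef
      have hh : (a • (1 : Matrix (n ⊕ n) (n ⊕ n) ℂ)).PosDef := Matrix.PosDef.one.smul ha
      rw [hh.1.eq]
      exact hh.add hh
    have := hf1 _ hm
    simpa [map_smul] using this
  have hu : 0 ≤ u := by
    by_contra hneg
    push Not at hneg
    have hc : 0 < 1 - (f 1).re := by linarith
    have h1 := hone' ((-u) / (1 - (f 1).re)) (div_pos (by linarith) hc)
    have h2 : (-u) / (1 - (f 1).re) * (f 1).re - u = (-u) / (1 - (f 1).re) := by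
      field_simp
      ring
    have h3 : 0 < (-u) / (1 - (f 1).re) := div_pos (by linarith) hc
    linarith
  have hblk' : ∀ C K : Matrix n n ℂ, C.PosSemidef → K.IsHermitian → u ≤ (f Q).re + (f (blk C K)).re := by
    intro C K hC hK
    have := hf2 (Q + blk C K) ⟨C, K, hC, hK, rfl⟩
    simpa [map_add] using this
  have hblk : ∀ C K : Matrix n n ℂ, C.PosSemidef → K.IsHermitian → 0 ≤ (f (blk C K)).re := by
    intro C K hC hK
    by_contra hneg
    push Not at hneg
    have h1 : ∀ a : ℝ, 0 < a → u ≤ (f Q).re + a * (f (blk C K)).re := by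
      intro a ha
      have h2 := hblk' (a • C) (a • K) (hC.smul ha.le) (by
        rw [Matrix.IsHermitian, conjTranspose_smul, hK.eq]; simp)
      rw [blk_smul] at h2
      simpa [map_smul] using h2
    have h3 := h1 ((|u| + |(f Q).re| + 1) / (-(f (blk C K)).re)) (by
      apply div_pos
      · positivity
      · linarith)
    have hne : (f (blk C K)).re ≠ 0 := hneg.ne
    have h4 : (|u| + |(f Q).re| + 1) / (-(f (blk C K)).re) * (f (blk C K)).re = -(|u| + |(f Q).re| + 1) := by
      field_simp
    rw [h4] at h3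
    have := neg_abs_le u
    have := le_abs_self (f Q).re
    linarith
  have hQle : u ≤ (f Q).re := by
    have := hblk' 0 0 Matrix.PosSemidef.zero Matrix.isHermitian_zero
    have hz : blk (0 : Matrix n n ℂ) 0 = 0 := by unfold blk; simp
    rw [hz] at this
    simpa using this
  have hK0 : ∀ K : Matrix n n ℂ, K.IsHermitian → (f (blk 0 K)).re = 0 := by
    intro K hK
    have h1 := hblk 0 K Matrix.PosSemidef.zero hK
    have h2 := hblk 0 (-K) Matrix.PosSemidef.zero hK.neg
    have h3 : blk (0 : Matrix n n ℂ) (-K) = - blk 0 K := by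
      unfold blk; rw [fromBlocks_neg]; simp
    rw [h3, map_neg, Complex.neg_re] at h2
    linarith
  -- H is psd
  have hHpsd : H.PosSemidef := by
    refine Matrix.PosSemidef.of_dotProduct_mulVec_nonneg hHH ?_
    intro x
    rw [Complex.le_def]
    constructor
    · rw [quad_trace, hkey _ (Matrix.posSemidef_vecMulVec_self_star x).1]
      have := hpos _ (Matrix.posSemidef_vecMulVec_self_star x)
      simp only [Complex.zero_re]
      linarith
    · have := hHH.im_star_dotProduct_mulVec_self x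
      simpa using this.symm
  set H0 := H.toBlocks₁₁ with hH0
  set H1 := H.toBlocks₁₂ with hH1
  set H2 := H.toBlocks₂₂ with hH2
  have h21 : H.toBlocks₂₁ = H1ᴴ := by
    ext i j
    have := congrFun (congrFun hHH.eq (Sum.inr i)) (Sum.inl j)
    simpa [Matrix.conjTranspose_apply, toBlocks₂₁, toBlocks₁₂, H1] using this.symm
  have hHb : H = fromBlocks H0 H1 H1ᴴ H2 := by
    rw [← h21, hH0, hH1, hH2, Matrix.fromBlocks_toBlocks]
  have hH1h : H1ᴴ = H1 := by
    set L : Matrix n n ℂ := Complex.I • (H1ᴴ - H1) with hL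
    have hLh : L.IsHermitian := by
      rw [Matrix.IsHermitian, hL, conjTranspose_smul, conjTranspose_sub, conjTranspose_conjTranspose]
      simp only [RCLike.star_def, Complex.conj_I, smul_sub, neg_smul]
      abel
    have h1 : (H * blk 0 L).trace.re = 0 := by
      rw [hkey _ (blk_herm Matrix.isHermitian_zero hLh), hK0 L hLh]; simp
    have h2 : (H * blk 0 L).trace = (Lᴴ * L).trace := by
      rw [hHb, hLh.eq]
      unfold blk
      rw [Matrix.fromBlocks_multiply, trace_fromBlocks']
      nth_rewrite 3 [hL]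
      simp only [neg_zero, Matrix.mul_zero, zero_add, add_zero, Matrix.mul_neg, Matrix.trace_neg, Matrix.mul_smul,
        Matrix.smul_mul, Matrix.sub_mul, Matrix.trace_smul, Matrix.trace_sub, smul_eq_mul]
      ring
    have h3 : (Lᴴ * L).trace = 0 := by
      apply Complex.ext
      · rw [← h2]; simpa using h1
      · have := (Complex.le_def.1 (Matrix.posSemidef_conjTranspose_mul_self L).trace_nonneg).2
        simpa using this.symm
    have h4 : L = 0 := Matrix.trace_conjTranspose_mul_self_eq_zero_iff.1 h3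
    rw [hL] at h4
    have h5 := (smul_eq_zero.1 h4).resolve_left Complex.I_ne_zero
    exact sub_eq_zero.1 h5
  rw [hH1h] at hHb
  have h02 : (H0 - H2).PosSemidef := by
    have hH0h : H0.IsHermitian := by
      have := hHH; rw [hHb, Matrix.isHermitian_fromBlocks_iff] at this; exact this.1
    have hH2h : H2.IsHermitian := by
      have := hHH; rw [hHb, Matrix.isHermitian_fromBlocks_iff] at this; exact this.2.2.2
    refine Matrix.PosSemidef.of_dotProduct_mulVec_nonneg (hH0h.sub hH2h) ?_
    intro x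
    rw [Complex.le_def]
    constructor
    · rw [quad_trace]
      have h1 := hblk (vecMulVec x (star x)) 0 (Matrix.posSemidef_vecMulVec_self_star x) Matrix.isHermitian_zero
      have h2 := hkey (blk (vecMulVec x (star x)) 0) (blk_herm (Matrix.posSemidef_vecMulVec_self_star x).1 Matrix.isHermitian_zero)
      have h3 : (H * blk (vecMulVec x (star x)) 0).trace = - ((H0 - H2) * vecMulVec x (star x)).trace := by
        rw [hHb]
        unfold blk
        rw [Matrix.fromBlocks_multiply, trace_fromBlocks']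
        simp only [smul_zero, neg_zero, Matrix.mul_zero, zero_add, add_zero, Matrix.mul_neg, Matrix.trace_neg,
          Matrix.sub_mul, Matrix.trace_sub]
        ring
      rw [h3, Complex.neg_re] at h2
      simp only [Complex.zero_re]
      linarith
    · have := (hH0h.sub hH2h).im_star_dotProduct_mulVec_self x
      simpa using this.symm
  have h01 : (H0 - H1).PosSemidef := by
    set J : Matrix (n ⊕ n) n ℂ := fromRows (1 : Matrix n n ℂ) (-1 : Matrix n n ℂ) with hJ
    have e1 : (Jᴴ * H * J).PosSemidef :=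
      hHpsd.conjTranspose_mul_mul_same J
    have e2 : (Jᴴ * H * J) = H0 - H1 - H1 + H2 := by
      rw [hHb, hJ, conjTranspose_fromRows_eq_fromCols_conjTranspose, fromCols_mul_fromBlocks, fromCols_mul_fromRows]
      simp
      abel
    rw [e2] at e1
    have e3 := (e1.add h02).smul (show (0 : ℝ) ≤ 1 / 2 by norm_num)
    have e4 : (1 / 2 : ℝ) • (H0 - H1 - H1 + H2 + (H0 - H2)) = H0 - H1 := by
      have : H0 - H1 - H1 + H2 + (H0 - H2) = (2 : ℝ) • (H0 - H1) := by rw [two_smul]; abel
      rw [this, smul_smul]; norm_num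
    rwa [e4] at e3
  have hmain : ∀ ε : ℝ, 0 < ε → η * (-(2 * (f 1).re) + ε * (Fintype.card n : ℝ)) ≤
      -(2 * (f Q).re) + ε * (Q.toBlocks₁₁.trace).re := by
    intro ε hε
    have hb : (fromBlocks (H0 + ε • (1 : Matrix n n ℂ)) H1 H1 H2).PosSemidef := by
      have e1 : fromBlocks (H0 + ε • (1 : Matrix n n ℂ)) H1 H1 H2 = H + fromBlocks (ε • (1 : Matrix n n ℂ)) 0 0 0 := by
        rw [hHb, fromBlocks_add]; simp
      rw [e1]
      refine hHpsd.add ?_
      have e2 : fromBlocks (ε • (1 : Matrix n n ℂ)) 0 0 0 = diagonal (Sum.elim (fun _ : n => (ε : ℂ)) (fun _ : n => (0 : ℂ))) := by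
        rw [← Matrix.fromBlocks_diagonal]
        congr 1
        · ext i j
          by_cases hij : i = j
          · subst hij; simp
          · simp [hij]
        · simp
      rw [e2]
      apply Matrix.PosSemidef.diagonal
      intro i
      cases i with
      | inl i => simpa using hε.le
      | inr i => simp
    have h02' : (H0 + ε • (1 : Matrix n n ℂ) - H2).PosSemidef := by
      have : H0 + ε • (1 : Matrix n n ℂ) - H2 = (H0 - H2) + ε • (1 : Matrix n n ℂ) := by abel
      rw [this]
      exact h02.add (Matrix.PosSemidef.one.smul hε.le)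
    have h01' : (H0 + ε • (1 : Matrix n n ℂ) - H1).PosDef := by
      have : H0 + ε • (1 : Matrix n n ℂ) - H1 = (H0 - H1) + ε • (1 : Matrix n n ℂ) := by abel
      rw [this]
      exact Matrix.PosDef.posSemidef_add h01 (Matrix.PosDef.one.smul hε)
    have e3 := trace_ineq _ _ _ Q η hb h02' h01' h
    have e4 : (fromBlocks (H0 + ε • (1 : Matrix n n ℂ)) H1 H1 H2 * Q).trace = (H * Q).trace + ε • Q.toBlocks₁₁.trace := by
      conv_lhs => rw [← Matrix.fromBlocks_toBlocks Q]
      conv_rhs => rw [← Matrix.fromBlocks_toBlocks Q]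
      rw [hHb, Matrix.fromBlocks_multiply, Matrix.fromBlocks_multiply, trace_fromBlocks', trace_fromBlocks', Matrix.add_mul]
      simp only [Matrix.trace_add, Matrix.smul_mul, Matrix.one_mul, Matrix.trace_smul, Matrix.toBlocks_fromBlocks₁₁]
      abel
    have e5 : H0.trace + H2.trace = (H * 1).trace := by
      rw [Matrix.mul_one, hHb, trace_fromBlocks']
    have e6 : (H0.trace).re + (H2.trace).re = -(2 * (f 1).re) := by
      rw [← Complex.add_re, e5, hkey 1 Matrix.isHermitian_one]
    rw [e4, Complex.add_re, hkey Q hQ, Matrix.trace_add, Complex.add_re, Matrix.trace_smul, Matrix.trace_one] at e3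
    simp only [Complex.real_smul, Complex.re_ofReal_mul, Complex.natCast_re] at e3
    have e7 : (H0.trace).re + ε * (Fintype.card n : ℝ) + (H2.trace).re = -(2 * (f 1).re) + ε * (Fintype.card n : ℝ) := by
      linarith
    rw [e7] at e3
    exact e3
  have hlim : η * (-(2 * (f 1).re)) ≤ -(2 * (f Q).re) := by
    apply le_of_forall_pos_le_add
    intro ε hε
    set D : ℝ := |(Q.toBlocks₁₁.trace).re| + 1 with hD
    have hDpos : 0 < D := by positivity
    have h1 := hmain (ε / D) (by positivity)
    have h2 : (ε / D) * (Q.toBlocks₁₁.trace).re ≤ ε := by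
      have : (Q.toBlocks₁₁.trace).re ≤ D := by
        have := le_abs_self (Q.toBlocks₁₁.trace).re
        linarith
      calc (ε / D) * (Q.toBlocks₁₁.trace).re ≤ (ε / D) * D := by
            apply mul_le_mul_of_nonneg_left this (by positivity)
        _ = ε := by field_simp
    have h3 : 0 ≤ η * ((ε / D) * (Fintype.card n : ℝ)) := by positivity
    nlinarith
  have hlt : (f 1).re < u := by
    have := hone' 1 one_pos
    simpa using this
  rcases hone.lt_or_eq with h0 | h0
  · have := mul_neg_of_pos_of_neg hη h0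
    linarith
  · rw [h0] at hlt hlim
    linarith

end

end Pool.Agent.Helper547
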