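import Pool.Agent.Helper547.A4
set_option autoImplicit false
open scoped ComplexOrder
open Matrix

namespace Pool.Agent.Helper547

section
variable {n m : Type*} [Fintype n] [DecidableEq n] [Fintype m] [DecidableEq m]

lemma half_smul_two (X : Matrix m m ℂ) : (1 / 2 : ℝ) • (X + X) = X := by
  rw [← two_smul ℝ X, smul_smul]; norm_num

theorem main_fact (U0 U1 : Matrix n n ℂ) (η : ℝ) (hη : 0 < η)
    (h : ∀ r : ℝ, |r| ≤ 1 → (((1 + r * r : ℝ) : ℂ) • (1 : Matrix n n ℂ)
      - (U0 + (r : ℂ) • U1)ᴴ * (U0 + (r : ℂ) • U1) - ((η * (1 + r * r) : ℝ) : ℂ) • 1).PosSemidef) :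
    ∃ (t : n ⊕ n → ℝ) (B : Matrix (n ⊕ n) n ℂ) (A : Matrix n (n ⊕ n) ℂ),
      (∀ k, |t k| ≤ 1) ∧
      Bᴴ * B + Bᴴ * (diagonal (fun k => (t k : ℂ)) * diagonal (fun k => (t k : ℂ))) * B = 1 ∧
      (1 - A * Aᴴ).PosSemidef ∧
      U0 = A * (((Real.sqrt 2 : ℝ) : ℂ) • (diagonal (fun k => (t k : ℂ)) * B)) ∧
      U1 = A * ((((Real.sqrt 2 : ℝ) : ℂ) * Complex.I) • B) := by
  set U : Matrix n (n ⊕ n) ℂ := fromCols U0 U1 with hU
  set Q : Matrix (n ⊕ n) (n ⊕ n) ℂ := 1 - Uᴴ * U with hQ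
  have hUU : Uᴴ * U = fromBlocks (U0ᴴ * U0) (U0ᴴ * U1) (U1ᴴ * U0) (U1ᴴ * U1) := by
    rw [hU, conjTranspose_fromCols_eq_fromRows_conjTranspose, fromRows_mul_fromCols]
  have hQb : Q = fromBlocks (1 - U0ᴴ * U0) (-(U0ᴴ * U1)) (-(U1ᴴ * U0)) (1 - U1ᴴ * U1) := by
    rw [hQ, hUU, ← fromBlocks_one, sub_eq_add_neg, fromBlocks_neg, fromBlocks_add]
    simp only [zero_add, sub_eq_add_neg]
  have hQh : Q.IsHermitian := by
    rw [hQ]; exact Matrix.isHermitian_one.sub (Matrix.isHermitian_conjTranspose_mul_self U)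
  obtain ⟨C, K, hC, hK, hpd⟩ := step1 Q hQh η hη (by
    intro r hr
    have := h r hr
    convert this using 2
    rw [hQb]
    simp only [toBlocks_fromBlocks₁₁, toBlocks_fromBlocks₁₂, toBlocks_fromBlocks₂₁, toBlocks_fromBlocks₂₂]
    simp only [conjTranspose_add, conjTranspose_smul, Matrix.add_mul, Matrix.mul_add, Matrix.smul_mul,
      Matrix.mul_smul, RCLike.star_def, Complex.conj_ofReal, smul_sub, smul_add, smul_neg, smul_smul]
    push_cast
    rw [add_smul, one_smul]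
    abel)
  set M : Matrix (n ⊕ n) (n ⊕ n) ℂ := 1 + blk C K with hM
  have hMU : M - Uᴴ * U = Q + blk C K := by rw [hM, hQ]; abel
  have hMpd : M.PosDef := by
    have : M = (Q + blk C K) + Uᴴ * U := by rw [← hMU]; abel
    rw [this]
    exact hpd.add_posSemidef (Matrix.posSemidef_conjTranspose_mul_self U)
  have hMb : M = fromBlocks (1 - C) (Complex.I • K) (-(Complex.I • K)) (1 + C) := by
    rw [hM, ← fromBlocks_one]
    unfold blk
    rw [fromBlocks_add]
    simp only [zero_add, sub_eq_add_neg]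
  -- moment data
  set S0 : Matrix n n ℂ := (1 / 2 : ℝ) • (1 + C) with hS0
  set S1 : Matrix n n ℂ := (1 / 2 : ℝ) • K with hS1
  set S2 : Matrix n n ℂ := (1 / 2 : ℝ) • (1 - C) with hS2
  have hblock : (fromBlocks S0 S1 S1 S2).PosDef := by
    set J : Matrix (n ⊕ n) (n ⊕ n) ℂ := fromBlocks 0 (Complex.I • (1 : Matrix n n ℂ)) 1 0 with hJ
    have hJH : Jᴴ = fromBlocks 0 1 (-(Complex.I • (1 : Matrix n n ℂ))) 0 := by
      rw [hJ, fromBlocks_conjTranspose]
      simp
    have hJJ : J * Jᴴ = 1 := by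
      rw [hJH, hJ, fromBlocks_multiply]
      simp [smul_smul]
    have hJu : IsUnit J := IsUnit.of_mul_eq_one _ hJJ
    have e1 : (star J * M * J).PosDef := (Matrix.IsUnit.posDef_star_left_conjugate_iff hJu).2 hMpd
    have e2 : star J * M * J = fromBlocks (1 + C) K K (1 - C) := by
      rw [star_eq_conjTranspose, hJH, hMb, hJ, fromBlocks_multiply, fromBlocks_multiply]
      simp [smul_smul]
    rw [e2] at e1
    have e3 := e1.smul (show (0 : ℝ) < 1 / 2 by norm_num)
    rw [fromBlocks_smul] at e3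
    exact e3
  have hS02 : (S0 - S2).PosSemidef := by
    have : S0 - S2 = C := by
      rw [hS0, hS2, ← smul_sub]
      have : (1 + C - (1 - C)) = C + C := by abel
      rw [this, half_smul_two]
    rw [this]; exact hC
  have hS01 : (S0 - S1).PosDef := by
    set J : Matrix (n ⊕ n) n ℂ := fromRows (1 : Matrix n n ℂ) (-1 : Matrix n n ℂ) with hJ
    have hinj : Function.Injective (J.mulVec) := by
      intro x y hxy
      have h1 : (J *ᵥ x) = Sum.elim x (-x) := by
        rw [hJ, fromRows_mulVec, Matrix.neg_mulVec, Matrix.one_mulVec]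
      have h2 : (J *ᵥ y) = Sum.elim y (-y) := by
        rw [hJ, fromRows_mulVec, Matrix.neg_mulVec, Matrix.one_mulVec]
      have h3 : Sum.elim x (-x) = Sum.elim y (-y) := by rw [← h1, ← h2]; exact hxy
      funext i
      exact congrFun h3 (Sum.inl i)
    have e1 : (Jᴴ * (fromBlocks S0 S1 S1 S2) * J).PosDef :=
      hblock.conjTranspose_mul_mul_same hinj
    have e2 : (Jᴴ * (fromBlocks S0 S1 S1 S2) * J) = S0 - S1 - S1 + S2 := by
      rw [hJ, conjTranspose_fromRows_eq_fromCols_conjTranspose, fromCols_mul_fromBlocks, fromCols_mul_fromRows]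
      simp
      abel
    rw [e2] at e1
    have e3 := (e1.add_posSemidef hS02).smul (show (0 : ℝ) < 1 / 2 by norm_num)
    have e4 : (1 / 2 : ℝ) • (S0 - S1 - S1 + S2 + (S0 - S2)) = S0 - S1 := by
      have : S0 - S1 - S1 + S2 + (S0 - S2) = (S0 - S1) + (S0 - S1) := by abel
      rw [this, half_smul_two]
    rwa [e4] at e3
  obtain ⟨t, B, ht, hB0, hB1, hB2⟩ := moment S0 S1 S2 hblock.posSemidef hS02 hS01
  set D : Matrix (n ⊕ n) (n ⊕ n) ℂ := diagonal (fun k => (t k : ℂ)) with hD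
  have hDh : Dᴴ = D := by
    rw [hD, diagonal_conjTranspose]
    congr 1
    funext k
    simp
  set c : ℂ := ((Real.sqrt 2 : ℝ) : ℂ) with hc
  have hcc : c * c = 2 := by
    rw [hc, ← Complex.ofReal_mul, Real.mul_self_sqrt (by norm_num)]; simp
  have hcs : star c = c := by rw [hc]; simp
  set W0 : Matrix (n ⊕ n) n ℂ := c • (D * B) with hW0
  set W1 : Matrix (n ⊕ n) n ℂ := (c * Complex.I) • B with hW1
  set W : Matrix (n ⊕ n) (n ⊕ n) ℂ := fromCols W0 W1 with hW
  have hW0h : W0ᴴ = c • (Bᴴ * D) := by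
    rw [hW0, conjTranspose_smul, conjTranspose_mul, hDh, hcs]
  have hW1h : W1ᴴ = (-(c * Complex.I)) • Bᴴ := by
    rw [hW1, conjTranspose_smul]
    congr 1
    rw [star_mul', hcs]
    simp
  have two_half : ∀ X : Matrix n n ℂ, (2 : ℂ) • ((1 / 2 : ℝ) • X) = X := by
    intro X
    have : ((1 / 2 : ℝ) • X) = (1 / 2 : ℂ) • X := by
      ext i j
      simp
    rw [this, smul_smul]; norm_num
  have hWW : Wᴴ * W = M := by
    rw [hW, conjTranspose_fromCols_eq_fromRows_conjTranspose, fromRows_mul_fromCols, hMb]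
    have a1 : W0ᴴ * W0 = 1 - C := by
      rw [hW0h, hW0, Matrix.smul_mul, Matrix.mul_smul, smul_smul, hcc]
      have : Bᴴ * D * (D * B) = S2 := by rw [← hB2]; simp only [Matrix.mul_assoc]
      rw [this, hS2, two_half]
    have a2 : W0ᴴ * W1 = Complex.I • K := by
      rw [hW0h, hW1, Matrix.smul_mul, Matrix.mul_smul, smul_smul, ← mul_assoc, hcc, hB1, hS1, mul_comm, ← smul_smul, two_half]
    have a3 : W1ᴴ * W0 = -(Complex.I • K) := by
      rw [hW1h, hW0, Matrix.smul_mul, Matrix.mul_smul, smul_smul, ← Matrix.mul_assoc, hB1, hS1]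
      have : -(c * Complex.I) * c = (-Complex.I) * 2 := by
        rw [← hcc]; ring
      rw [this, ← smul_smul, two_half, neg_smul]
    have a4 : W1ᴴ * W1 = 1 + C := by
      rw [hW1h, hW1, Matrix.smul_mul, Matrix.mul_smul, smul_smul, hB0, hS0]
      have : -(c * Complex.I) * (c * Complex.I) = 2 := by
        rw [← hcc]
        have := Complex.I_mul_I
        linear_combination (-(c * c)) * this
      rw [this, two_half]
    rw [a1, a2, a3, a4]
  have hMu : IsUnit M.det := by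
    have := hMpd.isUnit
    rwa [Matrix.isUnit_iff_isUnit_det] at this
  have hMinv : M⁻¹ * M = 1 := Matrix.nonsing_inv_mul _ hMu
  have hMinv' : M * M⁻¹ = 1 := Matrix.mul_nonsing_inv _ hMu
  have hMih : (M⁻¹)ᴴ = M⁻¹ := hMpd.inv.1.eq
  set A : Matrix n (n ⊕ n) ℂ := U * M⁻¹ * Wᴴ with hA
  have hAW : A * W = U := by
    rw [hA, Matrix.mul_assoc, hWW, Matrix.mul_assoc, hMinv, Matrix.mul_one]
  have hAA : A * Aᴴ = U * M⁻¹ * Uᴴ := by
    rw [hA, conjTranspose_mul, conjTranspose_mul, conjTranspose_conjTranspose, hMih]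
    calc U * M⁻¹ * Wᴴ * (W * (M⁻¹ * Uᴴ)) = U * M⁻¹ * ((Wᴴ * W) * M⁻¹) * Uᴴ := by
          simp only [Matrix.mul_assoc]
      _ = U * M⁻¹ * Uᴴ := by rw [hWW, hMinv', Matrix.mul_one]
  have hAc : (1 - A * Aᴴ).PosSemidef := by
    rw [hAA]
    apply schur_le hMpd
    rw [hMU]
    exact hpd.posSemidef
  have hAWc : fromCols (A * W0) (A * W1) = fromCols U0 U1 := by
    rw [← mul_fromCols, ← hW, hAW]
  refine ⟨t, B, A, ht, ?_, hAc, ?_, ?_⟩
  · rw [hB0, hB2, hS0, hS2, ← smul_add]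
    have : (1 + C + (1 - C)) = (1 : Matrix n n ℂ) + 1 := by abel
    rw [this, half_smul_two]
  · exact ((fromCols_inj hAWc).1).symm
  · exact ((fromCols_inj hAWc).2).symm

end

end Pool.Agent.Helper547
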