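import Pool.Agent.Helper547.A5
set_option autoImplicit false
open scoped ComplexOrder
open Matrix

namespace Pool.Agent.Helper547

/-- the linear map sending a pair to the weighted affine function on the interval -/
noncomputable def Phi : (ℂ × ℂ) →ₗ[ℂ] C(Set.Icc (-1 : ℝ) 1, ℂ) where
  toFun p := ⟨fun s => (p.1 + ((s : ℝ) : ℂ) * p.2) * (((Real.sqrt (1 + (s : ℝ) * s))⁻¹ : ℝ) : ℂ), by
    have h : Continuous fun s : Set.Icc (-1 : ℝ) 1 => (Real.sqrt (1 + (s : ℝ) * s))⁻¹ := by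
      apply Continuous.inv₀
      · fun_prop
      · intro s
        have : 0 < 1 + (s : ℝ) * s := by nlinarith [mul_self_nonneg (s : ℝ)]
        exact (Real.sqrt_pos.2 this).ne'
    fun_prop⟩
  map_add' p q := by
    ext s
    simp only [Prod.fst_add, Prod.snd_add, ContinuousMap.coe_mk, ContinuousMap.add_apply]
    ring
  map_smul' c p := by
    ext s
    simp only [Prod.smul_fst, Prod.smul_snd, ContinuousMap.coe_mk, ContinuousMap.smul_apply, smul_eq_mul,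
      RingHom.id_apply]
    ring

/-- the two dimensional space -/
def Esp : Type := ↥(LinearMap.range Phi)

noncomputable instance : NormedAddCommGroup Esp :=
  inferInstanceAs (NormedAddCommGroup ↥(LinearMap.range Phi))

noncomputable instance : NormedSpace ℂ Esp :=
  inferInstanceAs (NormedSpace ℂ ↥(LinearMap.range Phi))

lemma Phi_apply (p : ℂ × ℂ) (s : Set.Icc (-1 : ℝ) 1) :
    Phi p s = (p.1 + ((s : ℝ) : ℂ) * p.2) * (((Real.sqrt (1 + (s : ℝ) * s))⁻¹ : ℝ) : ℂ) := rfl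

lemma sq_pos' (s : ℝ) : 0 < 1 + s * s := by nlinarith [mul_self_nonneg s]

lemma sqrt_pos' (s : ℝ) : 0 < Real.sqrt (1 + s * s) := Real.sqrt_pos.2 (sq_pos' s)

/-- evaluation functional -/
noncomputable def ev (s : Set.Icc (-1 : ℝ) 1) : Esp →L[ℂ] ℂ :=
  LinearMap.mkContinuous
    { toFun := fun x => x.1 s
      map_add' := fun _ _ => rfl
      map_smul' := fun _ _ => rfl } 1 (by
        intro x
        rw [one_mul]
        exact ContinuousMap.norm_coe_le_norm x.1 s)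

lemma ev_apply (s : Set.Icc (-1 : ℝ) 1) (x : Esp) : ev s x = x.1 s := rfl

lemma ev_norm (s : Set.Icc (-1 : ℝ) 1) : ‖ev s‖ ≤ 1 :=
  LinearMap.mkContinuous_norm_le _ zero_le_one _

/-- the element of the space given by a pair -/
noncomputable def el (p : ℂ × ℂ) : Esp := ⟨Phi p, ⟨p, rfl⟩⟩

lemma el_add (p q : ℂ × ℂ) : el (p + q) = el p + el q := by
  apply Subtype.ext; exact map_add Phi p q

lemma el_smul (c : ℂ) (p : ℂ × ℂ) : el (c • p) = c • el p := by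
  apply Subtype.ext; exact map_smul Phi c p

lemma el_sum {ι : Type*} (S : Finset ι) (c : ι → ℂ) (p : ι → ℂ × ℂ) :
    ∑ k ∈ S, c k • el (p k) = el (∑ k ∈ S, c k • p k) := by
  classical
  induction S using Finset.induction_on with
  | empty =>
    simp only [Finset.sum_empty]
    apply Subtype.ext; exact (map_zero Phi).symm
  | insert a S ha ih => rw [Finset.sum_insert ha, Finset.sum_insert ha, el_add, el_smul, ih]

lemma el_norm_le {p : ℂ × ℂ} {c : ℝ} (hc : 0 ≤ c)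
    (h : ∀ s : ℝ, |s| ≤ 1 → ‖p.1 + (s : ℂ) * p.2‖ ≤ c * Real.sqrt (1 + s * s)) : ‖el p‖ ≤ c := by
  show ‖Phi p‖ ≤ c
  rw [ContinuousMap.norm_le _ hc]
  intro s
  rw [Phi_apply, norm_mul, Complex.norm_real, norm_inv, Real.norm_of_nonneg (sqrt_pos' _).le,
    ← div_eq_mul_inv, div_le_iff₀ (sqrt_pos' _)]
  exact h s (abs_le.2 s.2)

lemma d_norm (t : ℝ) (ht : |t| ≤ 1) :
    ‖el ((((Real.sqrt 2 : ℝ) : ℂ) * (t : ℂ) * (((Real.sqrt (1 + t * t))⁻¹ : ℝ) : ℂ),
      -(((Real.sqrt 2 : ℝ) : ℂ) * Complex.I * (((Real.sqrt (1 + t * t))⁻¹ : ℝ) : ℂ))) : ℂ × ℂ)‖ ≤ 1 := by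
  apply el_norm_le zero_le_one
  intro s hs
  simp only
  have e1 : ((Real.sqrt 2 : ℝ) : ℂ) * (t : ℂ) * (((Real.sqrt (1 + t * t))⁻¹ : ℝ) : ℂ)
      + (s : ℂ) * -(((Real.sqrt 2 : ℝ) : ℂ) * Complex.I * (((Real.sqrt (1 + t * t))⁻¹ : ℝ) : ℂ))
      = ((Real.sqrt 2 * (Real.sqrt (1 + t * t))⁻¹ : ℝ) : ℂ) * ((t : ℂ) - (s : ℂ) * Complex.I) := by
    push_cast; ring
  rw [e1, norm_mul, Complex.norm_real, Real.norm_of_nonneg (by positivity), one_mul]
  have e2 : ‖(t : ℂ) - (s : ℂ) * Complex.I‖ = Real.sqrt (t * t + s * s) := by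
    rw [Complex.norm_def, Complex.normSq_apply]
    simp
  rw [e2]
  have h1 := abs_le.1 ht
  have h2 := abs_le.1 hs
  have h3 : 0 < Real.sqrt (1 + t * t) := sqrt_pos' t
  have e3 : Real.sqrt 2 * (Real.sqrt (1 + t * t))⁻¹ * Real.sqrt (t * t + s * s)
      = (Real.sqrt (2 * (t * t + s * s))) / Real.sqrt (1 + t * t) := by
    rw [Real.sqrt_mul (by norm_num)]; ring
  rw [e3, div_le_iff₀ h3, ← Real.sqrt_mul (sq_pos' s).le]
  apply Real.sqrt_le_sqrt
  have h4 : 0 ≤ (1 - t * t) * (1 - s * s) := by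
    apply mul_nonneg <;> nlinarith
  nlinarith

theorem esp_unique : ∀ (n : ℕ) (x : Matrix (Fin n) (Fin n) Esp) (s t : ℝ), 0 ≤ s → s < t →
      (∀ f : Esp →L[ℂ] ℂ, ‖f‖ ≤ 1 →
        (((s ^ 2 : ℝ) : ℂ) • (1 : Matrix (Fin n) (Fin n) ℂ) -
          (Matrix.of fun i j => f (x i j)) *
            (Matrix.of fun i j => f (x i j)).conjTranspose).PosSemidef) →
      ∃ (N : ℕ) (a : Matrix (Fin n) (Fin N) ℂ) (b : Matrix (Fin N) (Fin n) ℂ)
        (d : Fin N → Esp),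
        (∀ k, ‖d k‖ ≤ 1) ∧
        (∀ i j, x i j = ∑ k, (a i k * b k j) • d k) ∧
        (((t : ℂ) • (1 : Matrix (Fin n) (Fin n) ℂ) - a * a.conjTranspose).PosSemidef) ∧
        (((t : ℂ) • (1 : Matrix (Fin n) (Fin n) ℂ) - b.conjTranspose * b).PosSemidef) := by
  intro n x s t hs hst hf
  have ht : 0 < t := lt_of_le_of_lt hs hst
  have hx : ∀ i j, ∃ p : ℂ × ℂ, x i j = el p := by
    intro i j
    obtain ⟨p, hp⟩ := (x i j).2
    exact ⟨p, Subtype.ext hp.symm⟩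
  choose P hP using hx
  set V0 : Matrix (Fin n) (Fin n) ℂ := Matrix.of fun i j => (P i j).1 with hV0
  set V1 : Matrix (Fin n) (Fin n) ℂ := Matrix.of fun i j => (P i j).2 with hV1
  have hVV : ∀ r : ℝ, |r| ≤ 1 → (((s ^ 2 * (1 + r * r) : ℝ) : ℂ) • (1 : Matrix (Fin n) (Fin n) ℂ)
      - (V0 + (r : ℂ) • V1) * (V0 + (r : ℂ) • V1)ᴴ).PosSemidef := by
    intro r hr
    have h1 := hf (ev ⟨r, abs_le.1 hr⟩) (ev_norm _)
    have h2 : (Matrix.of fun i j => ev ⟨r, abs_le.1 hr⟩ (x i j)) =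
        (((Real.sqrt (1 + r * r))⁻¹ : ℝ) : ℂ) • (V0 + (r : ℂ) • V1) := by
      ext i j
      rw [Matrix.of_apply, hP i j, ev_apply]
      show Phi (P i j) _ = _
      rw [Phi_apply]
      simp only [Matrix.smul_apply, Matrix.add_apply, hV0, hV1, Matrix.of_apply, smul_eq_mul]
      ring
    rw [h2] at h1
    have h3 := h1.smul (sq_pos' r).le
    convert h3 using 1
    rw [smul_sub, conjTranspose_smul, Matrix.smul_mul, Matrix.mul_smul, smul_smul]
    have e1 : ((1 + r * r : ℝ)) • (((s ^ 2 : ℝ) : ℂ) • (1 : Matrix (Fin n) (Fin n) ℂ)) =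
        ((s ^ 2 * (1 + r * r) : ℝ) : ℂ) • (1 : Matrix (Fin n) (Fin n) ℂ) := by
      ext i j
      simp only [Matrix.smul_apply, smul_eq_mul, Complex.real_smul]
      push_cast; ring
    have e2 : ((1 + r * r : ℝ)) • (((((Real.sqrt (1 + r * r))⁻¹ : ℝ) : ℂ) * star ((((Real.sqrt (1 + r * r))⁻¹ : ℝ) : ℂ))) •
        ((V0 + (r : ℂ) • V1) * (V0 + (r : ℂ) • V1)ᴴ)) = (V0 + (r : ℂ) • V1) * (V0 + (r : ℂ) • V1)ᴴ := by
      rw [RCLike.star_def, Complex.conj_ofReal, ← Complex.ofReal_mul, ← mul_inv, Real.mul_self_sqrt (sq_pos' r).le]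
      ext i j
      simp only [Matrix.smul_apply, smul_eq_mul, Complex.real_smul]
      rw [← mul_assoc, ← Complex.ofReal_mul, mul_inv_cancel₀ (sq_pos' r).ne', Complex.ofReal_one, one_mul]
    rw [e1, e2]
  set η : ℝ := 1 - s ^ 2 / t ^ 2 with hη
  have hηpos : 0 < η := by
    rw [hη, sub_pos, div_lt_one (by positivity)]
    exact pow_lt_pow_left₀ hst hs (by norm_num)
  obtain ⟨τ, B, A, hτ, hB, hA, hU0, hU1⟩ := main_fact (((t⁻¹ : ℝ) : ℂ) • V0ᴴ) (((t⁻¹ : ℝ) : ℂ) • V1ᴴ) η hηpos (by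
    intro r hr
    have h1 := (hVV r hr).smul (show (0 : ℝ) ≤ (t⁻¹) ^ 2 by positivity)
    convert h1 using 1
    have e1 : (((t⁻¹ : ℝ) : ℂ) • V0ᴴ + (r : ℂ) • ((t⁻¹ : ℝ) : ℂ) • V1ᴴ) = ((t⁻¹ : ℝ) : ℂ) • (V0 + (r : ℂ) • V1)ᴴ := by
      rw [conjTranspose_add, conjTranspose_smul, smul_add, smul_comm (r : ℂ)]
      simp
    rw [e1, conjTranspose_smul, conjTranspose_conjTranspose, Matrix.smul_mul, Matrix.mul_smul, smul_smul]
    ext i j
    simp only [Matrix.sub_apply, Matrix.smul_apply, smul_eq_mul, Complex.real_smul, RCLike.star_def, Complex.conj_ofReal, hη]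
    have htt : (t : ℂ) ≠ 0 := by exact_mod_cast ht.ne'
    push_cast
    field_simp
    ring)
  have hV0' : V0 = (t : ℂ) • (((Real.sqrt 2 : ℝ) : ℂ) • (Bᴴ * diagonal (fun k => (τ k : ℂ)) * Aᴴ)) := by
    have h1 : V0 = (t : ℂ) • (((t⁻¹ : ℝ) : ℂ) • V0ᴴ)ᴴ := by
      rw [conjTranspose_smul, conjTranspose_conjTranspose, smul_smul, RCLike.star_def, Complex.conj_ofReal,
        ← Complex.ofReal_mul, mul_inv_cancel₀ ht.ne', Complex.ofReal_one, one_smul]
    rw [h1, hU0, Matrix.mul_smul, conjTranspose_smul, conjTranspose_mul, conjTranspose_mul, diagonal_conjTranspose]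
    congr 2
    · simp
    · congr 2
      congr 1
      funext k
      simp
  have hV1' : V1 = (t : ℂ) • ((-(((Real.sqrt 2 : ℝ) : ℂ) * Complex.I)) • (Bᴴ * Aᴴ)) := by
    have h1 : V1 = (t : ℂ) • (((t⁻¹ : ℝ) : ℂ) • V1ᴴ)ᴴ := by
      rw [conjTranspose_smul, conjTranspose_conjTranspose, smul_smul, RCLike.star_def, Complex.conj_ofReal,
        ← Complex.ofReal_mul, mul_inv_cancel₀ ht.ne', Complex.ofReal_one, one_smul]
    rw [h1, hU1, Matrix.mul_smul, conjTranspose_smul, conjTranspose_mul]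
    congr 2
    simp
  set e : Fin (n + n) ≃ (Fin n ⊕ Fin n) := finSumFinEquiv.symm with he
  have hst2 : ((Real.sqrt t : ℝ) : ℂ) * ((Real.sqrt t : ℝ) : ℂ) = (t : ℂ) := by
    rw [← Complex.ofReal_mul, Real.mul_self_sqrt ht.le]
  refine ⟨n + n,
    Matrix.of fun i k => ((Real.sqrt t : ℝ) : ℂ) * ((Real.sqrt (1 + τ (e k) * τ (e k)) : ℝ) : ℂ) * star (B (e k) i),
    Matrix.of fun k j => ((Real.sqrt t : ℝ) : ℂ) * star (A j (e k)),
    fun k => el ((((Real.sqrt 2 : ℝ) : ℂ) * (τ (e k) : ℂ) * (((Real.sqrt (1 + τ (e k) * τ (e k)))⁻¹ : ℝ) : ℂ),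
      -(((Real.sqrt 2 : ℝ) : ℂ) * Complex.I * (((Real.sqrt (1 + τ (e k) * τ (e k)))⁻¹ : ℝ) : ℂ))) : ℂ × ℂ),
    fun k => d_norm _ (hτ _), ?_, ?_, ?_⟩
  · intro i j
    rw [hP i j, el_sum]
    congr 1
    have key : ∀ k : Fin n ⊕ Fin n, ((Real.sqrt (1 + τ k * τ k) : ℝ) : ℂ) * (((Real.sqrt (1 + τ k * τ k))⁻¹ : ℝ) : ℂ) = 1 := by
      intro k
      rw [← Complex.ofReal_mul, mul_inv_cancel₀ (sqrt_pos' _).ne', Complex.ofReal_one]
    apply Prod.ext
    · rw [Prod.fst_sum]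
      have h1 : (P i j).1 = V0 i j := rfl
      rw [h1, hV0']
      simp only [Matrix.of_apply, Prod.smul_fst, smul_eq_mul, Matrix.smul_apply]
      rw [Equiv.sum_comp e (fun k => (((Real.sqrt t : ℝ) : ℂ) * ((Real.sqrt (1 + τ k * τ k) : ℝ) : ℂ) * star (B k i) *
        (((Real.sqrt t : ℝ) : ℂ) * star (A j k))) * (((Real.sqrt 2 : ℝ) : ℂ) * (τ k : ℂ) * (((Real.sqrt (1 + τ k * τ k))⁻¹ : ℝ) : ℂ)))]
      rw [Matrix.mul_apply, Finset.mul_sum, Finset.mul_sum]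
      refine Finset.sum_congr rfl fun k _ => ?_
      rw [Matrix.mul_diagonal, conjTranspose_apply, conjTranspose_apply]
      linear_combination (-(star (B k i) * star (A j k) * ((Real.sqrt 2 : ℝ) : ℂ) * (τ k : ℂ))) * hst2
        - (((Real.sqrt t : ℝ) : ℂ) * ((Real.sqrt t : ℝ) : ℂ) * star (B k i) * star (A j k) * ((Real.sqrt 2 : ℝ) : ℂ) * (τ k : ℂ)) * key k
    · rw [Prod.snd_sum]
      have h1 : (P i j).2 = V1 i j := rfl
      rw [h1, hV1']
      simp only [Matrix.of_apply, Prod.smul_snd, smul_eq_mul, Matrix.smul_apply]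
      rw [Equiv.sum_comp e (fun k => (((Real.sqrt t : ℝ) : ℂ) * ((Real.sqrt (1 + τ k * τ k) : ℝ) : ℂ) * star (B k i) *
        (((Real.sqrt t : ℝ) : ℂ) * star (A j k))) * (-(((Real.sqrt 2 : ℝ) : ℂ) * Complex.I * (((Real.sqrt (1 + τ k * τ k))⁻¹ : ℝ) : ℂ))))]
      rw [Matrix.mul_apply, Finset.mul_sum, Finset.mul_sum]
      refine Finset.sum_congr rfl fun k _ => ?_
      rw [conjTranspose_apply, conjTranspose_apply]
      linear_combination ((star (B k i) * star (A j k) * ((Real.sqrt 2 : ℝ) : ℂ) * Complex.I)) * hst2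
        + (((Real.sqrt t : ℝ) : ℂ) * ((Real.sqrt t : ℝ) : ℂ) * star (B k i) * star (A j k) * ((Real.sqrt 2 : ℝ) : ℂ) * Complex.I) * key k
  · have h0 : (t : ℂ) • (1 : Matrix (Fin n) (Fin n) ℂ) -
        (Matrix.of fun i k => ((Real.sqrt t : ℝ) : ℂ) * ((Real.sqrt (1 + τ (e k) * τ (e k)) : ℝ) : ℂ) * star (B (e k) i)) *
        (Matrix.of fun i k => ((Real.sqrt t : ℝ) : ℂ) * ((Real.sqrt (1 + τ (e k) * τ (e k)) : ℝ) : ℂ) * star (B (e k) i))ᴴ = 0 := by
      rw [sub_eq_zero, ← hB]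
      ext i j
      simp only [Matrix.smul_apply, Matrix.add_apply, Matrix.mul_apply, Matrix.of_apply, conjTranspose_apply, smul_eq_mul,
        star_mul', RCLike.star_def, Complex.conj_ofReal, Complex.conj_conj]
      rw [Equiv.sum_comp e (fun k => (((Real.sqrt t : ℝ) : ℂ) * ((Real.sqrt (1 + τ k * τ k) : ℝ) : ℂ) * (starRingEnd ℂ) (B k i)) *
        (((Real.sqrt t : ℝ) : ℂ) * ((Real.sqrt (1 + τ k * τ k) : ℝ) : ℂ) * B k j))]
      rw [← Finset.sum_add_distrib, Finset.mul_sum]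
      refine Finset.sum_congr rfl fun k _ => ?_
      have h2 : ((Real.sqrt (1 + τ k * τ k) : ℝ) : ℂ) * ((Real.sqrt (1 + τ k * τ k) : ℝ) : ℂ) = 1 + (τ k : ℂ) * (τ k : ℂ) := by
        rw [← Complex.ofReal_mul, Real.mul_self_sqrt (sq_pos' _).le]; push_cast; ring
      have h3 : ∑ l, (starRingEnd ℂ) (B l i) * ∑ m, diagonal (fun k => (τ k : ℂ)) l m * diagonal (fun k => (τ k : ℂ)) m k
          = (starRingEnd ℂ) (B k i) * ((τ k : ℂ) * (τ k : ℂ)) := by
        have h4 : ∀ l, ∑ m, diagonal (fun k => (τ k : ℂ)) l m * diagonal (fun k => (τ k : ℂ)) m k =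
          (diagonal (fun k => (τ k : ℂ) * (τ k : ℂ))) l k := by
          intro l
          rw [← Matrix.mul_apply, Matrix.diagonal_mul_diagonal]
        simp only [h4]
        rw [Finset.sum_eq_single k]
        · rw [Matrix.diagonal_apply_eq]
        · intro l _ hl
          rw [Matrix.diagonal_apply_ne _ hl, mul_zero]
        · intro h; exact absurd (Finset.mem_univ k) h
      rw [h3]
      linear_combination (-((starRingEnd ℂ) (B k i) * B k j * (1 + (τ k : ℂ) * (τ k : ℂ)))) * hst2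
        - (((Real.sqrt t : ℝ) : ℂ) * ((Real.sqrt t : ℝ) : ℂ) * (starRingEnd ℂ) (B k i) * B k j) * h2
    rw [h0]
    exact Matrix.PosSemidef.zero
  · have h0 : (t : ℂ) • (1 : Matrix (Fin n) (Fin n) ℂ) -
        (Matrix.of fun k j => ((Real.sqrt t : ℝ) : ℂ) * star (A j (e k)))ᴴ *
        (Matrix.of fun k j => ((Real.sqrt t : ℝ) : ℂ) * star (A j (e k))) = t • (1 - A * Aᴴ) := by
      rw [smul_sub]
      congr 1
      · ext i j
        simp only [Matrix.smul_apply, Matrix.mul_apply, Matrix.of_apply, conjTranspose_apply, Complex.real_smul,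
          star_mul', RCLike.star_def, Complex.conj_ofReal, Complex.conj_conj]
        rw [Equiv.sum_comp e (fun k => (((Real.sqrt t : ℝ) : ℂ) * A i k) * (((Real.sqrt t : ℝ) : ℂ) * (starRingEnd ℂ) (A j k)))]
        rw [Finset.mul_sum]
        refine Finset.sum_congr rfl fun k _ => ?_
        linear_combination (A i k * (starRingEnd ℂ) (A j k)) * hst2
    rw [h0]
    exact hA.smul ht.le

end Pool.Agent.Helper547
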