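import Pool.Agent.Helper547.A6
set_option autoImplicit false
open scoped ComplexOrder
open Matrix

namespace Pool.Agent.Helper547


lemma el_val (p : ℂ × ℂ) (s : ℝ) (hs : |s| ≤ 1) :
    ∃ v : ℂ, ev ⟨s, abs_le.1 hs⟩ (el p) = v ∧ v * ((Real.sqrt (1 + s * s) : ℝ) : ℂ) = p.1 + (s : ℂ) * p.2 := by
  refine ⟨_, rfl, ?_⟩
  show Phi p _ * _ = _
  rw [Phi_apply, mul_assoc, ← Complex.ofReal_mul, inv_mul_cancel₀ (sqrt_pos' s).ne', Complex.ofReal_one, mul_one]

lemma el_surj (x : Esp) : ∃ p : ℂ × ℂ, x = el p := by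
  obtain ⟨p, hp⟩ := x.2
  exact ⟨p, Subtype.ext hp.symm⟩

lemma norm_ge (p : ℂ × ℂ) (s : ℝ) (hs : |s| ≤ 1) :
    ‖p.1 + (s : ℂ) * p.2‖ ≤ ‖el p‖ * Real.sqrt (1 + s * s) := by
  have h := (ev ⟨s, abs_le.1 hs⟩).le_of_opNorm_le (ev_norm _) (el p)
  obtain ⟨v, hv, hv2⟩ := el_val p s hs
  rw [← hv2, norm_mul, Complex.norm_real, Real.norm_of_nonneg (sqrt_pos' s).le]
  rw [hv, one_mul] at h
  exact mul_le_mul_of_nonneg_right h (sqrt_pos' s).le

lemma norm_attained (p : ℂ × ℂ) : ∃ s : ℝ, |s| ≤ 1 ∧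
    ‖p.1 + (s : ℂ) * p.2‖ = ‖el p‖ * Real.sqrt (1 + s * s) := by
  have hne : (Set.univ : Set (Set.Icc (-1 : ℝ) 1)).Nonempty := ⟨⟨0, by norm_num, by norm_num⟩, trivial⟩
  have hc : Continuous fun s : Set.Icc (-1 : ℝ) 1 => ‖Phi p s‖ := (Phi p).continuous.norm
  obtain ⟨s, -, hs⟩ := isCompact_univ.exists_isMaxOn hne hc.continuousOn
  refine ⟨s, abs_le.2 s.2, ?_⟩
  apply le_antisymm
  · exact norm_ge p s (abs_le.2 s.2)
  · have h1 : ‖el p‖ ≤ ‖Phi p s‖ := by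
      show ‖Phi p‖ ≤ _
      rw [ContinuousMap.norm_le _ (norm_nonneg _)]
      intro r
      exact hs (Set.mem_univ r)
    have h2 : ‖Phi p s‖ * Real.sqrt (1 + (s : ℝ) * s) = ‖p.1 + ((s : ℝ) : ℂ) * p.2‖ := by
      rw [Phi_apply, norm_mul, Complex.norm_real, norm_inv, Real.norm_of_nonneg (sqrt_pos' _).le, mul_assoc,
        inv_mul_cancel₀ (sqrt_pos' _).ne', mul_one]
    rw [← h2]
    exact mul_le_mul_of_nonneg_right h1 (sqrt_pos' _).le

lemma el_inj {p q : ℂ × ℂ} (h : el p = el q) : p = q := by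
  have h0 : el (p - q) = 0 := by
    have : el (p + (-1 : ℂ) • q) = el p + (-1 : ℂ) • el q := by rw [el_add, el_smul]
    rw [h] at this
    have h2 : p + (-1 : ℂ) • q = p - q := by rw [neg_one_smul]; abel
    rw [h2] at this
    rw [this, neg_one_smul]; abel
  have h1 := norm_ge (p - q) 0 (by norm_num)
  have h2 := norm_ge (p - q) 1 (by norm_num)
  rw [h0, norm_zero, zero_mul] at h1 h2
  have h3 : (p - q).1 = 0 := by
    have := norm_le_zero_iff.1 h1
    simpa using this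
  have h4 : (p - q).1 + (p - q).2 = 0 := by
    have := norm_le_zero_iff.1 h2
    simpa using this
  rw [h3, zero_add] at h4
  exact sub_eq_zero.1 (Prod.ext h3 h4)

lemma esp_nontrivial : Nontrivial Esp := by
  refine ⟨⟨el (1, 0), el (0, 0), ?_⟩⟩
  intro h
  have := el_inj h
  simp at this

lemma not_iso_C : ¬ Nonempty (Esp ≃ₗᵢ[ℂ] ℂ) := by
  rintro ⟨φ⟩
  set a := φ (el (1, 0)) with ha
  set b := φ (el (0, 1)) with hb
  have h1 : φ (b • el (1, 0)) = φ (a • el (0, 1)) := by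
    rw [map_smul, map_smul, ← ha, ← hb, smul_eq_mul, smul_eq_mul, mul_comm]
  have h2 := φ.injective h1
  rw [← el_smul, ← el_smul] at h2
  have h3 := el_inj h2
  simp only [Prod.smul_mk, smul_eq_mul, mul_one, mul_zero, Prod.mk.injEq] at h3
  have h4 : φ (el (1, 0)) = φ 0 := by
    rw [← ha, ← h3.2, map_zero]
  have h5 := φ.injective h4
  have h6 : el (1, 0) = el (0, 0) := by
    rw [h5]; apply Subtype.ext
    exact (map_zero Phi).symm
  have := el_inj h6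
  simp at this

/-- parallelogram identity for complex numbers -/
lemma para (a b : ℂ) : ‖a + b‖ ^ 2 + ‖a - b‖ ^ 2 = 2 * ‖a‖ ^ 2 + 2 * ‖b‖ ^ 2 := by
  have := parallelogram_law_with_norm ℝ a b
  nlinarith [this]

lemma sup_phase {a b : ℂ} {c : ℝ} (h : ∀ w : ℂ, ‖w‖ = 1 → ‖a + w * b‖ ≤ c) : ‖a‖ + ‖b‖ ≤ c := by
  by_cases ha : a = 0
  · have := h 1 (by simp)
    simpa [ha] using this
  by_cases hb : b = 0
  · have := h 1 (by simp)
    simpa [hb] using this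
  have hna : 0 < ‖a‖ := norm_pos_iff.2 ha
  have hnb : 0 < ‖b‖ := norm_pos_iff.2 hb
  have hca : (‖a‖ : ℂ) ≠ 0 := by exact_mod_cast hna.ne'
  have hcb : (‖b‖ : ℂ) ≠ 0 := by exact_mod_cast hnb.ne'
  have h1 := h ((a / ‖a‖) * (starRingEnd ℂ b / ‖b‖)) (by
    rw [norm_mul, norm_div, norm_div, RCLike.norm_conj, Complex.norm_real, Complex.norm_real, norm_norm, norm_norm,
      div_self hna.ne', div_self hnb.ne', one_mul])
  have h2 : starRingEnd ℂ b * b = (‖b‖ : ℂ) ^ 2 := by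
    rw [mul_comm, Complex.mul_conj, Complex.normSq_eq_norm_sq]
    push_cast; rfl
  have h3 : a + (a / ‖a‖) * (starRingEnd ℂ b / ‖b‖) * b = (a / ‖a‖) * (((‖a‖ + ‖b‖ : ℝ)) : ℂ) := by
    have : (a / ‖a‖) * (starRingEnd ℂ b / ‖b‖) * b = (a / ‖a‖) * ((starRingEnd ℂ b * b) / ‖b‖) := by ring
    rw [this, h2]
    push_cast
    field_simp
  rw [h3, norm_mul, norm_div, Complex.norm_real, Complex.norm_real, norm_norm, div_self hna.ne', one_mul,
    Real.norm_of_nonneg (by positivity)] at h1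
  exact h1

lemma linf_aux {p q : ℂ × ℂ} (hp : ‖el p‖ = 1) (h : ∀ w : ℂ, ‖w‖ = 1 → ‖el (p + w • q)‖ ≤ 1) :
    ∃ s : ℝ, |s| ≤ 1 ∧ ‖p.1 + (s : ℂ) * p.2‖ = Real.sqrt (1 + s * s) ∧ q.1 + (s : ℂ) * q.2 = 0 := by
  obtain ⟨s, hs, hs2⟩ := norm_attained p
  rw [hp, one_mul] at hs2
  refine ⟨s, hs, hs2, ?_⟩
  have h1 := norm_ge (p + (1 : ℂ) • q) s hs
  have h2 := norm_ge (p + (-1 : ℂ) • q) s hs
  have h3 := h 1 (by simp)
  have h4 := h (-1) (by simp)
  have hpos := sqrt_pos' s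
  set a := p.1 + (s : ℂ) * p.2 with ha
  set b := q.1 + (s : ℂ) * q.2 with hb
  have e1 : (p + (1 : ℂ) • q).1 + (s : ℂ) * (p + (1 : ℂ) • q).2 = a + b := by
    simp only [one_smul, Prod.fst_add, Prod.snd_add, ha, hb]; ring
  have e2 : (p + (-1 : ℂ) • q).1 + (s : ℂ) * (p + (-1 : ℂ) • q).2 = a - b := by
    simp only [neg_one_smul, Prod.fst_add, Prod.snd_add, Prod.fst_neg, Prod.snd_neg, ha, hb]; ring
  rw [e1] at h1
  rw [e2] at h2
  have h5 : ‖a + b‖ ≤ Real.sqrt (1 + s * s) := h1.trans (by nlinarith)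
  have h6 : ‖a - b‖ ≤ Real.sqrt (1 + s * s) := h2.trans (by nlinarith)
  have h7 := para a b
  have h8 : ‖b‖ ^ 2 ≤ 0 := by
    have h9 : ‖a + b‖ ^ 2 ≤ Real.sqrt (1 + s * s) ^ 2 := pow_le_pow_left₀ (norm_nonneg _) h5 2
    have h10 : ‖a - b‖ ^ 2 ≤ Real.sqrt (1 + s * s) ^ 2 := pow_le_pow_left₀ (norm_nonneg _) h6 2
    rw [hs2] at h7
    linarith
  have h11 : ‖b‖ = 0 := by
    have := norm_nonneg b
    nlinarith
  exact norm_eq_zero.1 h11

lemma no_linf_pair {p q : ℂ × ℂ} (hn : ∀ a b : ℂ, ‖el (a • p + b • q)‖ = max ‖a‖ ‖b‖) : False := by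
  have hp1 : ‖el p‖ = 1 := by
    have := hn 1 0
    simpa using this
  have hq1 : ‖el q‖ = 1 := by
    have := hn 0 1
    simpa using this
  obtain ⟨s0, hs0, hs0', hs0''⟩ := linf_aux (p := p) (q := q) hp1 (by
    intro w hw
    have := hn 1 w
    rw [one_smul] at this
    rw [this, hw]; simp)
  obtain ⟨s1, hs1, hs1', hs1''⟩ := linf_aux (p := q) (q := p) hq1 (by
    intro w hw
    have := hn w 1
    rw [one_smul, add_comm] at this
    rw [this, hw]; simp)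
  -- midpoint
  set m : ℝ := (s0 + s1) / 2 with hm
  have hm1 : |m| ≤ 1 := by
    rw [abs_le] at *
    constructor <;> linarith
  have hsum : ‖p.1 + (m : ℂ) * p.2‖ + ‖q.1 + (m : ℂ) * q.2‖ ≤ Real.sqrt (1 + m * m) := by
    apply sup_phase
    intro w hw
    have h1 := norm_ge ((1 : ℂ) • p + w • q) m hm1
    rw [hn, hw] at h1
    have e1 : ((1 : ℂ) • p + w • q).1 + (m : ℂ) * ((1 : ℂ) • p + w • q).2 = p.1 + (m : ℂ) * p.2 + w * (q.1 + (m : ℂ) * q.2) := by
      simp only [one_smul, Prod.fst_add, Prod.snd_add, Prod.smul_fst, Prod.smul_snd, smul_eq_mul]; ring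
    rw [e1] at h1
    simpa using h1
  -- p at midpoint is half of p at s0
  have e1 : p.1 + (m : ℂ) * p.2 = (1 / 2 : ℂ) * (p.1 + (s0 : ℂ) * p.2) := by
    rw [hm]; push_cast
    linear_combination (1 / 2 : ℂ) * hs1''
  have e2 : q.1 + (m : ℂ) * q.2 = (1 / 2 : ℂ) * (q.1 + (s1 : ℂ) * q.2) := by
    rw [hm]; push_cast
    linear_combination (1 / 2 : ℂ) * hs0''
  rw [e1, e2, norm_mul, norm_mul, hs0', hs1'] at hsum
  have e3 : ‖(1 / 2 : ℂ)‖ = 1 / 2 := by
    rw [norm_div]; simp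
  rw [e3] at hsum
  -- distinct
  have hne : s0 ≠ s1 := by
    intro h
    rw [h] at hs0'
    rw [hs1'', norm_zero] at hs0'
    exact (sqrt_pos' s1).ne hs0'
  have hA := Real.sq_sqrt (sq_pos' s0).le
  have hB := Real.sq_sqrt (sq_pos' s1).le
  have hM := Real.sq_sqrt (sq_pos' m).le
  set A := Real.sqrt (1 + s0 * s0) with hAdef
  set B := Real.sqrt (1 + s1 * s1) with hBdef
  set M := Real.sqrt (1 + m * m) with hMdef
  have hApos : 0 < A := sqrt_pos' s0
  have hBpos : 0 < B := sqrt_pos' s1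
  have hMpos : 0 < M := sqrt_pos' m
  have h1 : (A + B) ^ 2 ≤ (2 * M) ^ 2 := by
    apply pow_le_pow_left₀ (by positivity)
    linarith
  have h2 : A * B ≤ 1 + s0 * s1 := by
    rw [hm] at hM
    nlinarith
  have h3 : (A * B) ^ 2 ≤ (1 + s0 * s1) ^ 2 := pow_le_pow_left₀ (by positivity) h2 2
  have h4 : (A * B) ^ 2 = (1 + s0 * s0) * (1 + s1 * s1) := by rw [mul_pow, hA, hB]
  have h5 : (s0 - s1) ^ 2 ≤ 0 := by nlinarith
  have h6 : s0 - s1 = 0 := by
    have := sq_nonneg (s0 - s1)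
    exact pow_eq_zero_iff (two_ne_zero) |>.1 (le_antisymm h5 this)
  exact hne (by linarith)

lemma one_sub_sq_nonneg {s : ℝ} (hs : |s| ≤ 1) : 0 ≤ 1 - s * s := by
  have := abs_le_one_iff_mul_self_le_one.1 hs
  linarith

lemma quad_lemma (r : ℂ × ℂ) {s1 s2 s3 : ℝ} (h12 : s1 ≠ s2) (h13 : s1 ≠ s3) (h23 : s2 ≠ s3)
    (h1 : ‖r.1 + (s1 : ℂ) * r.2‖ ^ 2 = 1 + s1 * s1) (h2 : ‖r.1 + (s2 : ℂ) * r.2‖ ^ 2 = 1 + s2 * s2)
    (h3 : ‖r.1 + (s3 : ℂ) * r.2‖ ^ 2 = 1 + s3 * s3) :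
    (r.1.re * r.1.re + r.1.im * r.1.im = 1 ∧
        (r.2 = Complex.I * r.1 ∨ r.2 = -(Complex.I * r.1))) := by
  have ex : ∀ s : ℝ, ‖r.1 + (s : ℂ) * r.2‖ ^ 2 = (r.1.re + s * r.2.re) ^ 2 + (r.1.im + s * r.2.im) ^ 2 := by
    intro s
    rw [← Complex.normSq_eq_norm_sq, Complex.normSq_apply]
    simp
    ring
  rw [ex] at h1 h2 h3
  set x := r.1.re with hx
  set y := r.1.im with hy
  set u := r.2.re with hu
  set v := r.2.im with hv
  have q1 : (x ^ 2 + y ^ 2 - 1) + 2 * (x * u + y * v) * s1 + (u ^ 2 + v ^ 2 - 1) * s1 ^ 2 = 0 := by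
    linear_combination h1
  have q2 : (x ^ 2 + y ^ 2 - 1) + 2 * (x * u + y * v) * s2 + (u ^ 2 + v ^ 2 - 1) * s2 ^ 2 = 0 := by
    linear_combination h2
  have q3 : (x ^ 2 + y ^ 2 - 1) + 2 * (x * u + y * v) * s3 + (u ^ 2 + v ^ 2 - 1) * s3 ^ 2 = 0 := by
    linear_combination h3
  have r1 : 2 * (x * u + y * v) + (u ^ 2 + v ^ 2 - 1) * (s1 + s2) = 0 := by
    have : (s1 - s2) * (2 * (x * u + y * v) + (u ^ 2 + v ^ 2 - 1) * (s1 + s2)) = 0 := by linear_combination q1 - q2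
    exact (mul_eq_zero.1 this).resolve_left (sub_ne_zero.2 h12)
  have r2 : 2 * (x * u + y * v) + (u ^ 2 + v ^ 2 - 1) * (s1 + s3) = 0 := by
    have : (s1 - s3) * (2 * (x * u + y * v) + (u ^ 2 + v ^ 2 - 1) * (s1 + s3)) = 0 := by linear_combination q1 - q3
    exact (mul_eq_zero.1 this).resolve_left (sub_ne_zero.2 h13)
  have r3 : u ^ 2 + v ^ 2 - 1 = 0 := by
    have : (s2 - s3) * (u ^ 2 + v ^ 2 - 1) = 0 := by linear_combination r1 - r2
    exact (mul_eq_zero.1 this).resolve_left (sub_ne_zero.2 h23)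
  have r4 : x * u + y * v = 0 := by linear_combination (1 / 2) * r1 - (1 / 2) * (s1 + s2) * r3
  have r5 : x ^ 2 + y ^ 2 - 1 = 0 := by linear_combination q1 - 2 * s1 * r4 - s1 ^ 2 * r3
  refine ⟨by linear_combination r5, ?_⟩
  have r6 : (x * v - y * u) ^ 2 = 1 := by
    linear_combination (u ^ 2 + v ^ 2) * r5 + r3 - (x * u + y * v) * r4
  have r7 : (x * v - y * u - 1) * (x * v - y * u + 1) = 0 := by linear_combination r6
  have r8 : u = -y * (x * v - y * u) := by linear_combination x * r4 - u * r5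
  have r9 : v = x * (x * v - y * u) := by linear_combination y * r4 - v * r5
  rcases mul_eq_zero.1 r7 with h | h
  · left
    have h' : x * v - y * u = 1 := by linarith
    rw [h'] at r8 r9
    apply Complex.ext
    · simp [← hx, ← hy, ← hu, ← hv]; linarith
    · simp [← hx, ← hy, ← hu, ← hv]; linarith
  · right
    have h' : x * v - y * u = -1 := by linarith
    rw [h'] at r8 r9
    apply Complex.ext
    · simp [← hx, ← hy, ← hu, ← hv]; linarith
    · simp [← hx, ← hy, ← hu, ← hv]; linarith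

lemma l1_key {p q : ℂ × ℂ} (hn : ∀ a b : ℂ, ‖el (a • p + b • q)‖ = ‖a‖ + ‖b‖) (hp1 : ‖el p‖ = 1)
    (hq1 : ‖el q‖ = 1) : ∀ w : ℂ, ‖w‖ = 1 → ∃ s : ℝ, |s| ≤ 1 ∧ p.1 + (s : ℂ) * p.2 = w * (q.1 + (s : ℂ) * q.2) ∧
      ‖p.1 + (s : ℂ) * p.2‖ ^ 2 = 1 + s * s ∧ ‖q.1 + (s : ℂ) * q.2‖ ^ 2 = 1 + s * s := by
  intro w hw
  obtain ⟨s, hs, hs2⟩ := norm_attained ((1 : ℂ) • p + w • q)
  rw [hn, hw, norm_one] at hs2
  have h1 := norm_ge p s hs
  have h2 := norm_ge q s hs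
  rw [hp1, one_mul] at h1
  rw [hq1, one_mul] at h2
  set a := p.1 + (s : ℂ) * p.2 with ha
  set b := q.1 + (s : ℂ) * q.2 with hb
  have e1 : ((1 : ℂ) • p + w • q).1 + (s : ℂ) * ((1 : ℂ) • p + w • q).2 = a + w * b := by
    simp only [one_smul, Prod.fst_add, Prod.snd_add, Prod.smul_fst, Prod.smul_snd, smul_eq_mul, ha, hb]; ring
  rw [e1] at hs2
  have h3 : ‖w * b‖ = ‖b‖ := by rw [norm_mul, hw, one_mul]
  have h4 := para a (w * b)
  have hsq := Real.sq_sqrt (sq_pos' s).le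
  have hpos := sqrt_pos' s
  set S := Real.sqrt (1 + s * s) with hS
  rw [h3, hs2] at h4
  have h5 : ‖a‖ ^ 2 ≤ S ^ 2 := pow_le_pow_left₀ (norm_nonneg _) h1 2
  have h6 : ‖b‖ ^ 2 ≤ S ^ 2 := pow_le_pow_left₀ (norm_nonneg _) h2 2
  have h7 : ‖a - w * b‖ ^ 2 ≤ 0 := by nlinarith
  have h8 : ‖a - w * b‖ = 0 := by
    have := norm_nonneg (a - w * b)
    nlinarith
  have h9 : a = w * b := sub_eq_zero.1 (norm_eq_zero.1 h8)
  have h10 : ‖a - w * b‖ ^ 2 = 0 := by rw [h8]; norm_num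
  refine ⟨s, hs, h9, ?_, ?_⟩
  · nlinarith
  · nlinarith

lemma no_l1_pair {p q : ℂ × ℂ} (hn : ∀ a b : ℂ, ‖el (a • p + b • q)‖ = ‖a‖ + ‖b‖) : False := by
  have hp1 : ‖el p‖ = 1 := by
    have := hn 1 0
    simpa using this
  have hq1 : ‖el q‖ = 1 := by
    have := hn 0 1
    simpa using this
  have key := l1_key hn hp1 hq1
  obtain ⟨s1, hs1, hs1a, hs1b, hs1c⟩ := key 1 (by simp)
  obtain ⟨s2, hs2, hs2a, hs2b, hs2c⟩ := key (-1) (by simp)
  obtain ⟨s3, hs3, hs3a, hs3b, hs3c⟩ := key Complex.I (by simp)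
  obtain ⟨s4, hs4, hs4a, hs4b, hs4c⟩ := key (-Complex.I) (by simp)
  -- distinctness
  have hdist : ∀ (w w' : ℂ) (s : ℝ), p.1 + (s : ℂ) * p.2 = w * (q.1 + (s : ℂ) * q.2) →
      p.1 + (s : ℂ) * p.2 = w' * (q.1 + (s : ℂ) * q.2) → ‖q.1 + (s : ℂ) * q.2‖ ^ 2 = 1 + s * s → w = w' := by
    intro w w' s h1 h2 h3
    have h4 : (w - w') * (q.1 + (s : ℂ) * q.2) = 0 := by
      rw [sub_mul, ← h1, ← h2, sub_self]
    rcases mul_eq_zero.1 h4 with h5 | h5
    · exact sub_eq_zero.1 h5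
    · rw [h5] at h3
      have := sq_pos' s
      simp at h3
      linarith
  have h12 : s1 ≠ s2 := by
    intro h
    rw [← h] at hs2a
    have := hdist _ _ _ hs1a hs2a hs1c
    norm_num at this
  have h13 : s1 ≠ s3 := by
    intro h
    rw [← h] at hs3a
    have := hdist _ _ _ hs1a hs3a hs1c
    have := congrArg Complex.re this
    simp at this
  have h23 : s2 ≠ s3 := by
    intro h
    rw [← h] at hs3a
    have := hdist _ _ _ hs2a hs3a hs2c
    have := congrArg Complex.re this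
    simp at this
  obtain ⟨hpn, hpp⟩ := quad_lemma p h12 h13 h23 hs1b hs2b hs3b
  obtain ⟨hqn, hqq⟩ := quad_lemma q h12 h13 h23 hs1c hs2c hs3c
  have hpn' : p.1 * starRingEnd ℂ p.1 = 1 := by
    rw [Complex.mul_conj, Complex.normSq_apply, hpn]; simp
  have hqn' : q.1 * starRingEnd ℂ q.1 = 1 := by
    rw [Complex.mul_conj, Complex.normSq_apply, hqn]; simp
  set z : ℂ := q.1 * starRingEnd ℂ p.1 with hz
  have hzn : z * starRingEnd ℂ z = 1 := by
    rw [hz, map_mul, Complex.conj_conj]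
    linear_combination (p.1 * starRingEnd ℂ p.1) * hqn' + hpn'
  -- same sign impossible, opposite sign impossible
  have same : ∀ e : ℂ, (e = Complex.I ∨ e = -Complex.I) → p.2 = e * p.1 → q.2 = e * q.1 → False := by
    intro e he h1 h2
    have hne : ∀ s : ℝ, (1 + (s : ℂ) * e) ≠ 0 := by
      intro s h
      rcases he with rfl | rfl
      · have := congrArg Complex.re h
        simp at this
      · have := congrArg Complex.re h
        simp at this
    rw [h1, h2] at hs1a hs2a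
    have a1 : (1 + (s1 : ℂ) * e) * (p.1 - q.1) = 0 := by linear_combination hs1a
    have a2 : (1 + (s2 : ℂ) * e) * (p.1 + q.1) = 0 := by linear_combination hs2a
    have b1 := (mul_eq_zero.1 a1).resolve_left (hne _)
    have b2 := (mul_eq_zero.1 a2).resolve_left (hne _)
    have b3 : p.1 = 0 := by linear_combination (b1 + b2) / 2
    rw [b3] at hpn
    simp at hpn
  have opp : ∀ e : ℂ, (e = Complex.I ∨ e = -Complex.I) → p.2 = e * p.1 → q.2 = -(e * q.1) → False := by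
    intro e he h1 h2
    have hee : e * e = -1 := by
      rcases he with rfl | rfl
      · exact Complex.I_mul_I
      · rw [neg_mul_neg]; exact Complex.I_mul_I
    have gen : ∀ (w : ℂ) (s : ℝ), |s| ≤ 1 → p.1 + (s : ℂ) * p.2 = w * (q.1 + (s : ℂ) * q.2) → 0 ≤ (w * z).re := by
      intro w s hs h
      rw [h1, h2] at h
      have e1 : (1 + (s : ℂ) * e) = w * z * (1 - (s : ℂ) * e) := by
        rw [hz]
        linear_combination (starRingEnd ℂ p.1) * h - (1 + (s : ℂ) * e) * hpn'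
      have e2 : (1 + (s : ℂ) * e) ^ 2 = w * z * ((1 + s * s : ℝ) : ℂ) := by
        push_cast
        linear_combination (1 + (s : ℂ) * e) * e1 - (w * z * (s : ℂ) ^ 2) * hee
      have e3 : ((1 + (s : ℂ) * e) ^ 2).re = 1 - s * s := by
        have : (1 + (s : ℂ) * e) ^ 2 = ((1 - s * s : ℝ) : ℂ) + ((2 * s : ℝ) : ℂ) * e := by
          push_cast
          linear_combination ((s : ℂ) ^ 2) * hee
        rw [this]
        rcases he with rfl | rfl
        · simp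
        · simp
      rw [e2, Complex.re_mul_ofReal] at e3
      have h5 : 0 ≤ 1 - s * s := one_sub_sq_nonneg hs
      have h6 := sq_pos' s
      by_contra hneg
      push Not at hneg
      have := mul_neg_of_neg_of_pos hneg h6
      linarith
    have g1 := gen _ _ hs1 hs1a
    have g2 := gen _ _ hs2 hs2a
    have g3 := gen _ _ hs3 hs3a
    have g4 := gen _ _ hs4 hs4a
    simp at g1 g2 g3 g4
    have z1 : z.re = 0 := le_antisymm g2 g1
    have z2 : z.im = 0 := le_antisymm g3 g4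
    have z3 : z = 0 := Complex.ext z1 z2
    rw [z3] at hzn
    simp at hzn
  rcases hpp with hpp | hpp <;> rcases hqq with hqq | hqq
  · exact same Complex.I (Or.inl rfl) hpp hqq
  · exact opp Complex.I (Or.inl rfl) hpp hqq
  · exact opp (-Complex.I) (Or.inr rfl) (by rw [hpp]; ring) (by rw [hqq]; ring)
  · exact same (-Complex.I) (Or.inr rfl) (by rw [hpp]; ring) (by rw [hqq]; ring)


end Pool.Agent.Helper547
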